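import Mathlib

set_option autoImplicit false

/-!
# Choice of a residue class modulo many primes of small order
-/

namespace Pool.Agent.R507.MP28

open Finset

/-- the linear forms: for `c = (a, j, k, s)` the number `n j + s a ^ h k` -/
def ff (c : ℕ × ℕ × ℕ × ℤ) (h : ℕ) (n : ℤ) : ℤ :=
  n * (c.2.1 : ℤ) + c.2.2.2 * (c.1 : ℤ) ^ h * (c.2.2.1 : ℤ)

/-- the coefficients `(a, j, k, s)` -/
def CC (K : ℕ) : Finset (ℕ × ℕ × ℕ × ℤ) :=
  (Icc 2 K) ×ˢ (Icc 1 K) ×ˢ (Icc 1 K) ×ˢ ({1, -1} : Finset ℤ)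

lemma mem_CC {K : ℕ} {c : ℕ × ℕ × ℕ × ℤ} : c ∈ CC K ↔
    (2 ≤ c.1 ∧ c.1 ≤ K) ∧ (1 ≤ c.2.1 ∧ c.2.1 ≤ K) ∧ (1 ≤ c.2.2.1 ∧ c.2.2.1 ≤ K) ∧
      (c.2.2.2 = 1 ∨ c.2.2.2 = -1) := by
  unfold CC
  simp [mem_product]

lemma card_CC (K : ℕ) : (CC K).card ≤ 2 * K ^ 3 := by
  unfold CC
  rw [card_product, card_product, card_product]
  simp only [Nat.card_Icc]
  have : ({1, -1} : Finset ℤ).card = 2 := by decide
  rw [this]
  have h1 : K + 1 - 2 ≤ K := by omega
  have h2 : K + 1 - 1 = K := by omega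
  rw [h2]
  calc (K + 1 - 2) * (K * (K * 2)) ≤ K * (K * (K * 2)) := Nat.mul_le_mul_right _ h1
    _ = 2 * K ^ 3 := by ring

lemma CC_nonempty {K : ℕ} (hK : 2 ≤ K) : (CC K).Nonempty :=
  ⟨(2, 1, 1, 1), mem_CC.2 ⟨⟨le_rfl, hK⟩, ⟨le_rfl, (by omega : 1 ≤ K)⟩,
    ⟨le_rfl, (by omega : 1 ≤ K)⟩, Or.inl rfl⟩⟩

lemma cast_ne {p n : ℕ} (h1 : 1 ≤ n) (h2 : n < p) : (n : ZMod p) ≠ 0 := by
  intro h
  have := Nat.le_of_dvd (by omega) ((ZMod.natCast_eq_zero_iff _ _).1 h)
  omega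

lemma ord_pos {p a : ℕ} (hp : p.Prime) (h1 : 1 ≤ a) (h2 : a < p) :
    0 < orderOf (a : ZMod p) := by
  have := Fact.mk hp
  exact orderOf_pos_iff.2 (isOfFinOrder_iff_pow_eq_one.2
    ⟨p - 1, by have := hp.two_le; omega, ZMod.pow_card_sub_one_eq_one (cast_ne h1 h2)⟩)

/-- the number of `i < p - 1` with `a ^ i = a ^ h` is at least `(p - 1) / ord a` -/
lemma count_pow {p a : ℕ} (hp : p.Prime) (h1 : 1 ≤ a) (h2 : a < p) (h : ℕ) :
    ((p - 1 : ℕ) : ℝ) / (orderOf (a : ZMod p)) ≤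
      (((range (p - 1)).filter (fun i => (a : ZMod p) ^ i = (a : ZMod p) ^ h)).card : ℝ) := by
  have := Fact.mk hp
  set o := orderOf (a : ZMod p) with ho
  have ho0 : 0 < o := ord_pos hp h1 h2
  have hdvd : o ∣ p - 1 :=
    orderOf_dvd_of_pow_eq_one (ZMod.pow_card_sub_one_eq_one (cast_ne h1 h2))
  obtain ⟨e, he⟩ := hdvd
  have h3 : e ≤ ((range (p - 1)).filter (fun i => (a : ZMod p) ^ i = (a : ZMod p) ^ h)).card := by
    rw [← card_range e]
    apply card_le_card_of_injOn (fun i => h % o + o * i)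
    · intro i hi
      rw [mem_coe, mem_range] at hi
      rw [mem_coe, mem_filter, mem_range]
      have h4 : h % o < o := Nat.mod_lt _ ho0
      constructor
      · show h % o + o * i < p - 1
        rw [he]
        calc h % o + o * i < o + o * i := by omega
          _ = o * (i + 1) := by ring
          _ ≤ o * e := Nat.mul_le_mul_left _ hi
      · show (a : ZMod p) ^ (h % o + o * i) = _
        rw [pow_add, pow_mul, ho, pow_orderOf_eq_one, one_pow, mul_one, pow_mod_orderOf]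
    · intro i _ i' _ hii
      have : o * i = o * i' := by
        have : h % o + o * i = h % o + o * i' := hii
        omega
      exact Nat.eq_of_mul_eq_mul_left ho0 this
  rw [div_le_iff₀ (by exact_mod_cast ho0)]
  calc ((p - 1 : ℕ) : ℝ) = (e : ℝ) * o := by rw [he]; push_cast; ring
    _ ≤ _ := by
      apply mul_le_mul_of_nonneg_right _ (Nat.cast_nonneg _)
      exact_mod_cast h3

/-- the averaging step at one prime -/
lemma avg {K Hn p : ℕ} (hK : 2 ≤ K) (hp : p.Prime) (hKp : K < p)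
    (v : (ℕ × ℕ × ℕ × ℤ) × ℕ → ℝ) (hv : ∀ t, 0 ≤ v t) :
    ∃ u : ℤ, ∑ t ∈ CC K ×ˢ range Hn, v t * (if (p : ℤ) ∣ ff t.1 t.2 u then (1 / 2 : ℝ) else 1) ≤
      ∑ t ∈ CC K ×ˢ range Hn, v t *
        (1 - 1 / (2 * ((CC K).card : ℝ) * (orderOf (t.1.1 : ZMod p) : ℝ))) := by
  have := Fact.mk hp
  set U : (ℕ × ℕ × ℕ × ℤ) × ℕ → ℤ := fun q =>
    ((-((q.1.2.2.2 : ZMod p) * (q.1.1 : ZMod p) ^ q.2 * (q.1.2.2.1 : ZMod p) *
      ((q.1.2.1 : ZMod p))⁻¹)).val : ℤ) with hU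
  set S := CC K ×ˢ range (p - 1) with hS
  have hc0 : 0 < (CC K).card := card_pos.2 (CC_nonempty hK)
  have hp1 : 0 < p - 1 := by have := hp.two_le; omega
  have hSne : S.Nonempty := by
    rw [hS]
    exact (CC_nonempty hK).product ⟨0, mem_range.2 hp1⟩
  have hScard : (S.card : ℝ) = (CC K).card * ((p - 1 : ℕ) : ℝ) := by
    rw [hS, card_product, card_range]
    push_cast
    ring
  -- the key count
  have hcount : ∀ t ∈ CC K ×ˢ range Hn,
      ((p - 1 : ℕ) : ℝ) / (orderOf (t.1.1 : ZMod p)) ≤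
        ((S.filter (fun q => (p : ℤ) ∣ ff t.1 t.2 (U q))).card : ℝ) := by
    intro t ht
    obtain ⟨htC, -⟩ := mem_product.1 ht
    have hm := mem_CC.1 htC
    have h1 := count_pow (a := t.1.1) hp (by omega) (by omega) t.2
    refine h1.trans ?_
    have h2 : ((range (p - 1)).filter
        (fun i => (t.1.1 : ZMod p) ^ i = (t.1.1 : ZMod p) ^ t.2)).card ≤
        (S.filter (fun q => (p : ℤ) ∣ ff t.1 t.2 (U q))).card := by
      apply card_le_card_of_injOn (fun i => (t.1, i))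
      · intro i hi
        rw [mem_coe, mem_filter, mem_range] at hi
        rw [mem_coe, mem_filter, hS, mem_product, mem_range]
        refine ⟨⟨htC, hi.1⟩, ?_⟩
        rw [← ZMod.intCast_zmod_eq_zero_iff_dvd]
        have hj : ((t.1.2.1 : ℕ) : ZMod p) ≠ 0 := cast_ne hm.2.1.1 (by omega)
        have e1 : ((U (t.1, i) : ℤ) : ZMod p) = -((t.1.2.2.2 : ZMod p) * (t.1.1 : ZMod p) ^ i *
            (t.1.2.2.1 : ZMod p) * ((t.1.2.1 : ZMod p))⁻¹) := by
          rw [hU]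
          show (((_ : ZMod p).val : ℤ) : ZMod p) = _
          rw [Int.cast_natCast, ZMod.natCast_zmod_val]
        unfold ff
        push_cast
        rw [e1, hi.2]
        field_simp
        ring
      · intro i _ i' _ hii
        exact (Prod.mk.inj hii).2
    exact_mod_cast h2
  -- sum over all choices
  have hsum : ∑ q ∈ S, (∑ t ∈ CC K ×ˢ range Hn, v t *
      (if (p : ℤ) ∣ ff t.1 t.2 (U q) then (1 / 2 : ℝ) else 1)) ≤
      ∑ q ∈ S, (∑ t ∈ CC K ×ˢ range Hn, v t *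
        (1 - 1 / (2 * ((CC K).card : ℝ) * (orderOf (t.1.1 : ZMod p) : ℝ)))) := by
    rw [sum_comm, sum_const, nsmul_eq_mul, mul_sum]
    apply sum_le_sum
    intro t ht
    rw [← mul_sum]
    have e1 : ∑ q ∈ S, (if (p : ℤ) ∣ ff t.1 t.2 (U q) then (1 / 2 : ℝ) else 1) =
        S.card - 1 / 2 * ((S.filter (fun q => (p : ℤ) ∣ ff t.1 t.2 (U q))).card : ℝ) := by
      have e2 : ∀ q ∈ S, (if (p : ℤ) ∣ ff t.1 t.2 (U q) then (1 / 2 : ℝ) else 1) =
          1 - 1 / 2 * (if (p : ℤ) ∣ ff t.1 t.2 (U q) then (1 : ℝ) else 0) := by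
        intro q _
        split_ifs <;> norm_num
      rw [sum_congr rfl e2, sum_sub_distrib, ← mul_sum, sum_const, nsmul_eq_mul, mul_one,
        sum_boole]
    rw [e1]
    have h1 := hcount t ht
    obtain ⟨htC, -⟩ := mem_product.1 ht
    have hm := mem_CC.1 htC
    have ho : (0 : ℝ) < (orderOf (t.1.1 : ZMod p) : ℝ) := by
      exact_mod_cast ord_pos hp (by omega) (by omega)
    have hc : (0 : ℝ) < (CC K).card := by exact_mod_cast hc0
    have h2 : (S.card : ℝ) * (v t * (1 - 1 / (2 * ((CC K).card : ℝ) *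
        (orderOf (t.1.1 : ZMod p) : ℝ)))) = v t * (S.card - 1 / 2 *
          (((p - 1 : ℕ) : ℝ) / (orderOf (t.1.1 : ZMod p)))) := by
      rw [hScard]
      field_simp
    rw [h2]
    apply mul_le_mul_of_nonneg_left _ (hv t)
    linarith
  obtain ⟨q, -, hq⟩ := exists_le_of_sum_le hSne hsum
  exact ⟨U q, hq⟩

/-- the choice of the residue class -/
lemma choose_res {K : ℕ} (Hn : ℕ) (hK : 2 ≤ K) (P : Finset ℕ) :
    (∀ p ∈ P, p.Prime ∧ K < p) →
    ∀ w : (ℕ × ℕ × ℕ × ℤ) × ℕ → ℝ, (∀ t, 0 ≤ w t) →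
    ∃ b : ℤ, ∑ t ∈ CC K ×ˢ range Hn,
        w t * ∏ p ∈ P, (if (p : ℤ) ∣ ff t.1 t.2 b then (1 / 2 : ℝ) else 1) ≤
      ∑ t ∈ CC K ×ˢ range Hn, w t * ∏ p ∈ P,
        (1 - 1 / (2 * ((CC K).card : ℝ) * (orderOf (t.1.1 : ZMod p) : ℝ))) := by
  classical
  induction P using Finset.induction_on with
  | empty =>
    intro _ w _
    exact ⟨0, by simp⟩
  | insert p P hpP ih =>
    intro hP w hw
    have hpp := hP p (mem_insert_self _ _)
    have hc0 : (1 : ℝ) ≤ (CC K).card := by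
      exact_mod_cast (card_pos.2 (CC_nonempty hK))
    have hfac : ∀ (q a : ℕ), 0 ≤ 1 - 1 / (2 * ((CC K).card : ℝ) * (orderOf (a : ZMod q) : ℝ)) := by
      intro q a
      rcases Nat.eq_zero_or_pos (orderOf (a : ZMod q)) with h | h
      · rw [h]; simp
      · have h1 : (1 : ℝ) ≤ (orderOf (a : ZMod q) : ℝ) := by exact_mod_cast h
        rw [sub_nonneg, div_le_one (by positivity)]
        nlinarith
    obtain ⟨u, hu⟩ := avg (Hn := Hn) hK hpp.1 hpp.2 (fun t => w t * ∏ q ∈ P,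
      (1 - 1 / (2 * ((CC K).card : ℝ) * (orderOf (t.1.1 : ZMod q) : ℝ))))
      (fun t => mul_nonneg (hw t) (prod_nonneg fun q _ => hfac q _))
    obtain ⟨b', hb'⟩ := ih (fun q hq => hP q (mem_insert_of_mem hq))
      (fun t => w t * (if (p : ℤ) ∣ ff t.1 t.2 u then (1 / 2 : ℝ) else 1))
      (fun t => mul_nonneg (hw t) (by split_ifs <;> norm_num))
    -- Chinese remainder theorem
    set M : ℕ := ∏ q ∈ P, q with hM
    have hcop : IsCoprime (p : ℤ) (M : ℤ) := by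
      rw [Nat.isCoprime_iff_coprime, hM]
      apply Nat.Coprime.prod_right
      intro q hq
      refine (Nat.coprime_primes hpp.1 (hP q (mem_insert_of_mem hq)).1).2 ?_
      rintro rfl
      exact hpP hq
    obtain ⟨x, y, hxy⟩ := hcop
    set b : ℤ := u * (y * M) + b' * (x * p) with hb
    have hbu : (p : ℤ) ∣ b - u := by
      refine ⟨(b' - u) * x, ?_⟩
      rw [hb]
      linear_combination u * hxy
    have hbb : (M : ℤ) ∣ b - b' := by
      refine ⟨(u - b') * y, ?_⟩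
      rw [hb]
      linear_combination b' * hxy
    have hdiff : ∀ (c : ℕ × ℕ × ℕ × ℤ) (h : ℕ) (n n' q : ℤ), q ∣ n - n' →
        (q ∣ ff c h n ↔ q ∣ ff c h n') := by
      intro c h n n' q hq
      have e : ff c h n = ff c h n' + (n - n') * (c.2.1 : ℤ) := by
        unfold ff; ring
      rw [e]
      exact dvd_add_left (hq.mul_right _)
    refine ⟨b, ?_⟩
    have e1 : ∀ t ∈ CC K ×ˢ range Hn,
        w t * ∏ q ∈ insert p P, (if (q : ℤ) ∣ ff t.1 t.2 b then (1 / 2 : ℝ) else 1) =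
        (w t * (if (p : ℤ) ∣ ff t.1 t.2 u then (1 / 2 : ℝ) else 1)) *
          ∏ q ∈ P, (if (q : ℤ) ∣ ff t.1 t.2 b' then (1 / 2 : ℝ) else 1) := by
      intro t _
      rw [prod_insert hpP, mul_assoc]
      congr 2
      · simp only [hdiff t.1 t.2 b u p hbu]
      · apply prod_congr rfl
        intro q hq
        have : (q : ℤ) ∣ b - b' := (Int.natCast_dvd_natCast.2 (dvd_prod_of_mem _ hq)).trans hbb
        simp only [hdiff t.1 t.2 b b' q this]
    rw [sum_congr rfl e1]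
    refine hb'.trans ?_
    refine le_trans (le_of_eq ?_) (hu.trans (le_of_eq ?_))
    · apply sum_congr rfl
      intro t _
      ring
    · apply sum_congr rfl
      intro t _
      rw [prod_insert hpP]
      ring

end Pool.Agent.R507.MP28
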