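import Mathlib

set_option autoImplicit false

/-!
# Brun's pure sieve with weights `(1 - θ) ^ ω`
-/

namespace Pool.Agent.R507.MP28

open Finset

/-- truncated expansion of `∏ (1 - x p)` -/
noncomputable def Sk (x : ℕ → ℝ) (W : Finset ℕ) (k : ℕ) : ℝ :=
  ∑ D ∈ W.powerset, if D.card ≤ k then ∏ p ∈ D, (-x p) else 0

/-- elementary symmetric sum -/
noncomputable def Ek (x : ℕ → ℝ) (W : Finset ℕ) (k : ℕ) : ℝ :=
  ∑ D ∈ W.powerset, if D.card = k then ∏ p ∈ D, x p else 0

lemma Sk_zero (x : ℕ → ℝ) (W : Finset ℕ) : Sk x W 0 = 1 := by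
  unfold Sk
  rw [sum_eq_single ∅]
  · simp
  · intro D _ hD
    rw [if_neg]
    rw [Nat.le_zero, card_eq_zero]
    exact hD
  · intro h
    exact absurd (empty_mem_powerset W) h

lemma Sk_insert (x : ℕ → ℝ) {W : Finset ℕ} {q : ℕ} (hq : q ∉ W) (k : ℕ) :
    Sk x (insert q W) (k + 1) = Sk x W (k + 1) - x q * Sk x W k := by
  classical
  unfold Sk
  rw [sum_powerset_insert hq, sub_eq_add_neg, ← neg_mul, mul_sum]
  congr 1
  apply sum_congr rfl
  intro D hD
  have h1 : q ∉ D := fun h => hq (mem_powerset.1 hD h)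
  rw [card_insert_of_notMem h1, prod_insert h1]
  by_cases h : D.card ≤ k
  · rw [if_pos (by omega), if_pos h]
  · rw [if_neg (by omega), if_neg h, mul_zero]

lemma bonf (x : ℕ → ℝ) (W : Finset ℕ) : (∀ p ∈ W, 0 ≤ x p ∧ x p ≤ 1) → ∀ k : ℕ,
    0 ≤ (-1) ^ k * (Sk x W k - ∏ p ∈ W, (1 - x p)) := by
  classical
  induction W using Finset.induction_on with
  | empty =>
    intro _ k
    have : Sk x ∅ k = 1 := by simp [Sk]
    rw [this]; simp
  | insert q W hq ih =>
    intro hx k
    have hx' : ∀ p ∈ W, 0 ≤ x p ∧ x p ≤ 1 := fun p hp => hx p (mem_insert_of_mem hp)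
    have hq0 := hx q (mem_insert_self _ _)
    rw [prod_insert hq]
    cases k with
    | zero =>
      rw [Sk_zero, pow_zero, one_mul, sub_nonneg]
      have h1 : ∏ p ∈ W, (1 - x p) ≤ 1 :=
        prod_le_one (fun p hp => by have := hx' p hp; linarith)
          (fun p hp => by have := hx' p hp; linarith)
      have h2 : 0 ≤ ∏ p ∈ W, (1 - x p) :=
        prod_nonneg (fun p hp => by have := hx' p hp; linarith)
      nlinarith
    | succ k =>
      rw [Sk_insert x hq]
      have h1 := ih hx' (k + 1)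
      have h2 := ih hx' k
      have e : (-1 : ℝ) ^ (k + 1) * (Sk x W (k + 1) - x q * Sk x W k -
          (1 - x q) * ∏ p ∈ W, (1 - x p)) =
          (-1) ^ (k + 1) * (Sk x W (k + 1) - ∏ p ∈ W, (1 - x p)) +
            x q * ((-1) ^ k * (Sk x W k - ∏ p ∈ W, (1 - x p))) := by
        rw [pow_succ]; ring
      rw [e]
      exact add_nonneg h1 (mul_nonneg hq0.1 h2)

lemma Sk_succ (x : ℕ → ℝ) (W : Finset ℕ) (k : ℕ) :
    Sk x W (k + 1) = Sk x W k + (-1) ^ (k + 1) * Ek x W (k + 1) := by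
  unfold Sk Ek
  rw [mul_sum, ← sum_add_distrib]
  apply sum_congr rfl
  intro D _
  rcases lt_trichotomy D.card (k + 1) with h | h | h
  · rw [if_pos (by omega), if_pos (by omega), if_neg (by omega)]; ring
  · rw [if_pos (by omega), if_neg (by omega), if_pos h]
    rw [prod_neg, h]
    ring
  · rw [if_neg (by omega), if_neg (by omega), if_neg (by omega)]; ring

lemma pow_add_ge (a x : ℝ) (ha : 0 ≤ a) (hx : 0 ≤ x) (k : ℕ) :
    a ^ (k + 1) + (k + 1) * x * a ^ k ≤ (a + x) ^ (k + 1) := by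
  induction k with
  | zero => simp
  | succ k ih =>
    have h1 : (a ^ (k + 1) + (k + 1) * x * a ^ k) * (a + x) ≤ (a + x) ^ (k + 1) * (a + x) :=
      mul_le_mul_of_nonneg_right ih (by linarith)
    have h2 : (0 : ℝ) ≤ (k + 1) * x * a ^ k * x := by positivity
    rw [pow_succ (a + x) (k + 1)]
    push_cast
    have e : (a ^ (k + 1) + (k + 1) * x * a ^ k) * (a + x) =
      a ^ (k + 1 + 1) + ((k : ℝ) + 1 + 1) * x * a ^ (k + 1) + (k + 1) * x * a ^ k * x := by ring
    linarith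

lemma Ek_zero (x : ℕ → ℝ) (W : Finset ℕ) : Ek x W 0 = 1 := by
  unfold Ek
  rw [sum_eq_single ∅]
  · simp
  · intro D _ hD
    rw [if_neg]
    rw [card_eq_zero]
    exact hD
  · intro h
    exact absurd (empty_mem_powerset W) h

lemma Ek_insert (x : ℕ → ℝ) {W : Finset ℕ} {q : ℕ} (hq : q ∉ W) (k : ℕ) :
    Ek x (insert q W) (k + 1) = Ek x W (k + 1) + x q * Ek x W k := by
  classical
  unfold Ek
  rw [sum_powerset_insert hq, mul_sum]
  congr 1
  apply sum_congr rfl
  intro D hD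
  have h1 : q ∉ D := fun h => hq (mem_powerset.1 hD h)
  rw [card_insert_of_notMem h1, prod_insert h1]
  by_cases h : D.card = k
  · rw [if_pos (by omega), if_pos h]
  · rw [if_neg (by omega), if_neg h, mul_zero]

lemma Ek_le (x : ℕ → ℝ) (W : Finset ℕ) : (∀ p ∈ W, 0 ≤ x p) → ∀ k : ℕ,
    Ek x W k ≤ (∑ p ∈ W, x p) ^ k / (k.factorial : ℝ) := by
  classical
  induction W using Finset.induction_on with
  | empty =>
    intro _ k
    cases k with
    | zero => simp [Ek]
    | succ k => simp [Ek]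
  | insert q W hq ih =>
    intro hx k
    have hx' : ∀ p ∈ W, 0 ≤ x p := fun p hp => hx p (mem_insert_of_mem hp)
    have hq0 := hx q (mem_insert_self _ _)
    have hs : 0 ≤ ∑ p ∈ W, x p := sum_nonneg hx'
    cases k with
    | zero => rw [Ek_zero]; simp
    | succ k =>
      rw [Ek_insert x hq, sum_insert hq]
      have h1 := ih hx' (k + 1)
      have h2 := ih hx' k
      have h3 := pow_add_ge _ _ hs hq0 k
      have hf : (((k + 1).factorial : ℕ) : ℝ) = (k + 1) * (k.factorial : ℝ) := by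
        rw [Nat.factorial_succ]; push_cast; ring
      have hf0 : (0 : ℝ) < k.factorial := by exact_mod_cast Nat.factorial_pos k
      calc Ek x W (k + 1) + x q * Ek x W k
          ≤ (∑ p ∈ W, x p) ^ (k + 1) / ((k + 1).factorial : ℝ) +
            x q * ((∑ p ∈ W, x p) ^ k / (k.factorial : ℝ)) := by
              apply add_le_add h1
              exact mul_le_mul_of_nonneg_left h2 hq0
        _ = ((∑ p ∈ W, x p) ^ (k + 1) + (k + 1) * x q * (∑ p ∈ W, x p) ^ k) /
            ((k + 1).factorial : ℝ) := by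
              rw [hf]
              field_simp
        _ ≤ _ := by
              rw [add_comm (x q)]
              apply div_le_div_of_nonneg_right h3
              positivity

/-- the upper bound for even truncation -/
lemma Sk_le (x : ℕ → ℝ) (W : Finset ℕ) (hx : ∀ p ∈ W, 0 ≤ x p ∧ x p ≤ 1) {k : ℕ}
    (hk : Even k) :
    Sk x W k ≤ ∏ p ∈ W, (1 - x p) + (∑ p ∈ W, x p) ^ (k + 1) / ((k + 1).factorial : ℝ) := by
  have h1 := bonf x W hx (k + 1)
  have h2 := Ek_le x W (fun p hp => (hx p hp).1) (k + 1)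
  rw [Sk_succ, hk.add_one.neg_one_pow] at h1
  linarith

lemma card_small (W : Finset ℕ) : ∀ k : ℕ,
    ((W.powerset.filter (fun D => D.card ≤ k)).card : ℝ) ≤ ((W.card : ℝ) + 1) ^ k := by
  classical
  induction W using Finset.induction_on with
  | empty =>
    intro k
    simp only [powerset_empty, card_empty, Nat.cast_zero, zero_add, one_pow]
    exact_mod_cast (card_filter_le _ _).trans (by simp)
  | insert q W hq ih =>
    intro k
    have e : ∀ k, ((W.powerset.filter (fun D => D.card ≤ k)).card : ℝ) =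
        ∑ D ∈ W.powerset, if D.card ≤ k then (1 : ℝ) else 0 := by
      intro k
      rw [sum_boole]
    have e' : ∀ k, (((insert q W).powerset.filter (fun D => D.card ≤ k)).card : ℝ) =
        ∑ D ∈ (insert q W).powerset, if D.card ≤ k then (1 : ℝ) else 0 := by
      intro k
      rw [sum_boole]
    rw [card_insert_of_notMem hq]
    push_cast
    cases k with
    | zero =>
      rw [e', sum_eq_single ∅]
      · simp
      · intro D _ hD
        rw [if_neg]
        rw [Nat.le_zero, card_eq_zero]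
        exact hD
      · intro h
        exact absurd (empty_mem_powerset _) h
    | succ k =>
      rw [e', sum_powerset_insert hq]
      have h1 := ih (k + 1)
      have h2 := ih k
      rw [e] at h1 h2
      have e2 : ∑ D ∈ W.powerset, (if (insert q D).card ≤ k + 1 then (1 : ℝ) else 0) =
          ∑ D ∈ W.powerset, (if D.card ≤ k then (1 : ℝ) else 0) := by
        apply sum_congr rfl
        intro D hD
        have h1 : q ∉ D := fun h => hq (mem_powerset.1 hD h)
        rw [card_insert_of_notMem h1]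
        by_cases h : D.card ≤ k
        · rw [if_pos (by omega), if_pos h]
        · rw [if_neg (by omega), if_neg h]
      rw [e2]
      have hn : (0 : ℝ) ≤ W.card := Nat.cast_nonneg _
      calc _ ≤ ((W.card : ℝ) + 1) ^ (k + 1) + ((W.card : ℝ) + 1) ^ k := add_le_add h1 h2
        _ = ((W.card : ℝ) + 1) ^ k * ((W.card : ℝ) + 1 + 1) := by ring
        _ ≤ ((W.card : ℝ) + 1 + 1) ^ k * ((W.card : ℝ) + 1 + 1) := by
          apply mul_le_mul_of_nonneg_right _ (by linarith)
          exact pow_le_pow_left₀ (by linarith) (by linarith) _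
        _ = _ := by ring

/-- number of multiples of `d` in a progression -/
lemma count_lin (d : ℕ) (hd : 0 < d) (A B m₀ : ℤ) (hA : IsCoprime A (d : ℤ)) (N : ℕ) :
    |((((Ico m₀ (m₀ + N)).filter (fun m => (d : ℤ) ∣ A * m + B)).card : ℕ) : ℝ) - N / d| ≤ 1 := by
  obtain ⟨x, y, hxy⟩ := hA
  set v : ℤ := -(x * B) with hv
  have h1 : ∀ m : ℤ, (d : ℤ) ∣ A * m + B ↔ m ≡ v [ZMOD (d : ℤ)] := by
    intro m
    rw [Int.modEq_comm, Int.modEq_iff_dvd]
    constructor
    · intro h
      have e : m - v = x * (A * m + B) + d * (y * m) := by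
        rw [hv]; linear_combination (-m) * hxy
      rw [e]
      exact dvd_add (h.mul_left _) (dvd_mul_right _ _)
    · intro h
      have e : A * m + B = A * (m - v) + d * (y * B) := by
        rw [hv]; linear_combination (-B) * hxy
      rw [e]
      exact dvd_add (h.mul_left _) (dvd_mul_right _ _)
  have h2 : (Ico m₀ (m₀ + N)).filter (fun m => (d : ℤ) ∣ A * m + B) =
      (Ico m₀ (m₀ + N)).filter (fun m => m ≡ v [ZMOD (d : ℤ)]) := by
    apply filter_congr
    intro m _
    exact h1 m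
  rw [h2]
  have hd' : (0 : ℤ) < (d : ℤ) := by exact_mod_cast hd
  have h3 := Int.Ico_filter_modEq_card m₀ (m₀ + N) hd' v
  have hdq : (0 : ℚ) < (d : ℚ) := by exact_mod_cast hd
  set c1 := ⌈((((m₀ + N : ℤ) - v : ℤ) : ℚ)) / ((d : ℤ) : ℚ)⌉ with hc1
  set c2 := ⌈(((m₀ - v : ℤ) : ℚ)) / ((d : ℤ) : ℚ)⌉ with hc2
  have h4 : (((Ico m₀ (m₀ + N)).filter (fun m => m ≡ v [ZMOD (d : ℤ)])).card : ℤ) =
      max (c1 - c2) 0 := by
    rw [h3, hc1, hc2]
    push_cast
    rfl
  have hq1 : (c1 : ℚ) < (((m₀ + N : ℤ) - v : ℤ) : ℚ) / ((d : ℤ) : ℚ) + 1 := Int.ceil_lt_add_one _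
  have hq2 : (((m₀ + N : ℤ) - v : ℤ) : ℚ) / ((d : ℤ) : ℚ) ≤ c1 := Int.le_ceil _
  have hq3 : (c2 : ℚ) < ((m₀ - v : ℤ) : ℚ) / ((d : ℤ) : ℚ) + 1 := Int.ceil_lt_add_one _
  have hq4 : ((m₀ - v : ℤ) : ℚ) / ((d : ℤ) : ℚ) ≤ c2 := Int.le_ceil _
  have e1 : (((m₀ + N : ℤ) - v : ℤ) : ℚ) / ((d : ℤ) : ℚ) = ((m₀ - v : ℤ) : ℚ) / ((d : ℤ) : ℚ) +
      (N : ℚ) / (d : ℚ) := by
    push_cast
    ring
  rw [e1] at hq1 hq2
  have hNd : (0 : ℚ) ≤ (N : ℚ) / (d : ℚ) := by positivity
  have h5 : |(((max (c1 - c2) 0 : ℤ)) : ℚ) - (N : ℚ) / (d : ℚ)| ≤ 1 := by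
    rw [abs_le]
    rcases le_total (c1 - c2) 0 with h | h
    · rw [max_eq_right h]
      have h' : (c1 : ℚ) - c2 ≤ 0 := by exact_mod_cast h
      push_cast
      constructor <;> linarith
    · rw [max_eq_left h]
      push_cast
      constructor <;> linarith
  have h6 : ((((Ico m₀ (m₀ + N)).filter (fun m => m ≡ v [ZMOD (d : ℤ)])).card : ℕ) : ℝ) =
      (((max (c1 - c2) 0 : ℤ) : ℚ) : ℝ) := by
    have : ((((Ico m₀ (m₀ + N)).filter (fun m => m ≡ v [ZMOD (d : ℤ)])).card : ℤ) : ℝ) =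
      ((max (c1 - c2) 0 : ℤ) : ℝ) := by rw [h4]
    push_cast at this ⊢
    exact this
  rw [h6]
  have h7 : |((((max (c1 - c2) 0 : ℤ)) : ℚ) : ℝ) - (N : ℝ) / (d : ℝ)| ≤ 1 := by
    have : (((|(((max (c1 - c2) 0 : ℤ)) : ℚ) - (N : ℚ) / (d : ℚ)| : ℚ)) : ℝ) ≤ 1 := by
      exact_mod_cast h5
    rw [Rat.cast_abs] at this
    push_cast at this ⊢
    exact this
  exact h7

/-- **The sieve bound.** -/
lemma sieve (Q : Finset ℕ) (hQ : ∀ p ∈ Q, p.Prime) (θ : ℝ) (h0 : 0 ≤ θ) (h1 : θ ≤ 1)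
    (A B m₀ : ℤ) (hA : ∀ p ∈ Q, ¬ (p : ℤ) ∣ A) (N k : ℕ) (hk : Even k) :
    ∑ m ∈ Ico m₀ (m₀ + N), (1 - θ) ^ (Q.filter (fun p : ℕ => (p : ℤ) ∣ A * m + B)).card ≤
      N * (∏ p ∈ Q, (1 - θ / p) + (∑ p ∈ Q, 1 / (p : ℝ)) ^ (k + 1) / ((k + 1).factorial : ℝ)) +
        ((Q.card : ℝ) + 1) ^ k := by
  classical
  set I := Ico m₀ (m₀ + N) with hI
  set W : ℤ → Finset ℕ := fun m => Q.filter (fun p : ℕ => (p : ℤ) ∣ A * m + B) with hW
  -- pointwise upper bound
  have hpt : ∀ m ∈ I, (1 - θ) ^ (W m).card ≤ ∑ D ∈ Q.powerset,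
      if D.card ≤ k ∧ ((∏ p ∈ D, p : ℕ) : ℤ) ∣ A * m + B then (-θ) ^ D.card else 0 := by
    intro m _
    have h2 := bonf (fun _ => θ) (W m) (fun _ _ => ⟨h0, h1⟩) k
    rw [hk.neg_one_pow, one_mul, sub_nonneg, prod_const] at h2
    refine h2.trans (le_of_eq ?_)
    unfold Sk
    have hsub : (W m).powerset ⊆ Q.powerset := powerset_mono.2 (filter_subset _ _)
    rw [← sum_subset hsub (f := fun D => if D.card ≤ k ∧ ((∏ p ∈ D, p : ℕ) : ℤ) ∣ A * m + B then
      (-θ) ^ D.card else 0)]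
    · apply sum_congr rfl
      intro D hD
      have hDW := mem_powerset.1 hD
      have hdv : ((∏ p ∈ D, p : ℕ) : ℤ) ∣ A * m + B := by
        push_cast
        apply Finset.prod_dvd_of_coprime
        · intro p hp q hq hpq
          have hp' := mem_filter.1 (hDW hp)
          have hq' := mem_filter.1 (hDW hq)
          exact Nat.isCoprime_iff_coprime.2
            ((Nat.coprime_primes (hQ p hp'.1) (hQ q hq'.1)).2 hpq)
        · intro p hp
          exact (mem_filter.1 (hDW hp)).2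
      rw [prod_const]
      simp only [hdv, and_true]
    · intro D hD hD'
      rw [if_neg]
      rintro ⟨-, hdv⟩
      apply hD'
      rw [mem_powerset]
      intro p hp
      rw [hW]
      refine mem_filter.2 ⟨mem_powerset.1 hD hp, ?_⟩
      refine dvd_trans ?_ hdv
      exact_mod_cast dvd_prod_of_mem _ hp
  -- counting
  have hcnt : ∀ D ∈ Q.powerset, (∑ m ∈ I, if D.card ≤ k ∧ ((∏ p ∈ D, p : ℕ) : ℤ) ∣ A * m + B then
      (-θ) ^ D.card else 0) ≤
      N * (if D.card ≤ k then ∏ p ∈ D, (-(θ / p)) else 0) + (if D.card ≤ k then 1 else 0) := by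
    intro D hD
    by_cases hDk : D.card ≤ k
    · simp only [hDk, true_and, if_true]
      rw [← sum_filter, sum_const, nsmul_eq_mul]
      have hDQ := mem_powerset.1 hD
      set d := ∏ p ∈ D, p with hd
      have hd0 : 0 < d := prod_pos fun p hp => (hQ p (hDQ hp)).pos
      have hcop : IsCoprime A (d : ℤ) := by
        rw [hd]
        push_cast
        apply IsCoprime.prod_right
        intro p hp
        have hpp := hQ p (hDQ hp)
        exact ((Prime.coprime_iff_not_dvd (Nat.prime_iff_prime_int.1 hpp)).2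
          (hA p (hDQ hp))).symm
      have h3 := count_lin d hd0 A B m₀ hcop N
      have e1 : ∏ p ∈ D, (-(θ / (p : ℝ))) = (-θ) ^ D.card / d := by
        have e2 : ∀ p ∈ D, (-(θ / (p : ℝ))) = (-θ) * ((p : ℝ))⁻¹ := fun p _ => by ring
        rw [prod_congr rfl e2, prod_mul_distrib, prod_const, hd]
        push_cast
        rw [prod_inv_distrib]
        rfl
      rw [e1]
      have h4 : |(-θ) ^ D.card| ≤ 1 := by
        rw [abs_pow, abs_neg, abs_of_nonneg h0]
        exact pow_le_one₀ h0 h1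
      have h5 : |((((I.filter (fun m => (d : ℤ) ∣ A * m + B)).card : ℕ) : ℝ) - N / d) *
          (-θ) ^ D.card| ≤ 1 := by
        rw [abs_mul]
        exact mul_le_one₀ h3 (abs_nonneg _) h4
      have h6 := (abs_le.1 h5).2
      have e3 : (N : ℝ) * ((-θ) ^ D.card / d) = N / d * (-θ) ^ D.card := by ring
      rw [e3]
      linarith
    · simp [hDk]
  calc ∑ m ∈ I, (1 - θ) ^ (W m).card ≤ ∑ m ∈ I, ∑ D ∈ Q.powerset,
      (if D.card ≤ k ∧ ((∏ p ∈ D, p : ℕ) : ℤ) ∣ A * m + B then (-θ) ^ D.card else 0) :=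
        sum_le_sum hpt
    _ = ∑ D ∈ Q.powerset, ∑ m ∈ I,
      (if D.card ≤ k ∧ ((∏ p ∈ D, p : ℕ) : ℤ) ∣ A * m + B then (-θ) ^ D.card else 0) := sum_comm
    _ ≤ ∑ D ∈ Q.powerset, (N * (if D.card ≤ k then ∏ p ∈ D, (-(θ / p)) else 0) +
        (if D.card ≤ k then 1 else 0)) := sum_le_sum hcnt
    _ = N * Sk (fun p => θ / p) Q k + ((Q.powerset.filter (fun D => D.card ≤ k)).card : ℝ) := by
        rw [sum_add_distrib, ← mul_sum, sum_boole]
        rfl
    _ ≤ _ := by
        have hx : ∀ p ∈ Q, 0 ≤ θ / (p : ℝ) ∧ θ / (p : ℝ) ≤ 1 := by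
          intro p hp
          have h2 : (1 : ℝ) ≤ p := by exact_mod_cast (hQ p hp).one_lt.le
          refine ⟨by positivity, ?_⟩
          rw [div_le_one (by linarith)]
          linarith
        have h3 := Sk_le (fun p => θ / p) Q hx hk
        have h4 := card_small Q k
        have h5 : (∑ p ∈ Q, θ / (p : ℝ)) ^ (k + 1) ≤ (∑ p ∈ Q, 1 / (p : ℝ)) ^ (k + 1) := by
          apply pow_le_pow_left₀
          · exact sum_nonneg fun p hp => (hx p hp).1
          · apply sum_le_sum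
            intro p hp
            apply div_le_div_of_nonneg_right h1 (Nat.cast_nonneg _)
        apply add_le_add _ h4
        apply mul_le_mul_of_nonneg_left _ (Nat.cast_nonneg _)
        refine h3.trans ?_
        gcongr

end Pool.Agent.R507.MP28
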