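import Mathlib
import Pool.Agent.R507.MP28.Choose
import Pool.Agent.R507.MP28.Sieve

set_option autoImplicit false

/-!
# The number of exceptional integers in the chosen progression
-/

namespace Pool.Agent.R507.MP28

open Finset

lemma ff_affine (c : ℕ × ℕ × ℕ × ℤ) (h : ℕ) (b M m : ℤ) :
    ff c h (b + M * m) = (M * (c.2.1 : ℤ)) * m + ff c h b := by
  unfold ff; ring

/-- a nonzero integer has at least as many prime factors as there are primes of a set dividing
it -/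
lemma card_le_omega (P : Finset ℕ) (hP : ∀ p ∈ P, p.Prime) (z : ℤ) (hz : z ≠ 0) :
    (P.filter (fun p : ℕ => (p : ℤ) ∣ z)).card ≤ z.natAbs.primeFactors.card := by
  apply card_le_card
  intro p hp
  rw [mem_filter] at hp
  rw [Nat.mem_primeFactors]
  exact ⟨hP p hp.1, Int.natCast_dvd.1 hp.2, Int.natAbs_ne_zero.2 hz⟩

lemma core {K : ℕ} (Hn : ℕ) (P Q : Finset ℕ)
    (hP : ∀ p ∈ P, p.Prime ∧ K < p) (hQ : ∀ p ∈ Q, p.Prime ∧ K < p ∧ p ∉ P)
    (b m₀ : ℤ) (N k L : ℕ) (hk : Even k) (θ : ℝ) (h0 : 0 ≤ θ) (h1 : θ < 1) (S1 E : ℝ)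
    (hS1 : ∑ t ∈ CC K ×ˢ range Hn, ∏ p ∈ P,
      (if (p : ℤ) ∣ ff t.1 t.2 b then (1 / 2 : ℝ) else 1) ≤ S1)
    (hE : N * (∏ p ∈ Q, (1 - θ / p) + (∑ p ∈ Q, 1 / (p : ℝ)) ^ (k + 1) /
      ((k + 1).factorial : ℝ)) + ((Q.card : ℝ) + 1) ^ k ≤ E) (hE0 : 0 ≤ E) :
    (((Ico m₀ (m₀ + N)).filter (fun m => ∃ t ∈ CC K ×ˢ range Hn,
      (ff t.1 t.2 (b + ((∏ p ∈ P, p : ℕ) : ℤ) * m)).natAbs.primeFactors.card < L)).card : ℝ) ≤
      ((CC K).card : ℝ) * Hn + S1 * 2 ^ L * (((1 - θ)⁻¹) ^ L * E) := by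
  classical
  set M : ℤ := ((∏ p ∈ P, p : ℕ) : ℤ) with hM
  set T := CC K ×ˢ range Hn with hT
  set I := Ico m₀ (m₀ + N) with hI
  have hM0 : M ≠ 0 := by
    rw [hM]
    exact_mod_cast prod_ne_zero_iff.2 fun p hp => (hP p hp).1.ne_zero
  have hpM : ∀ p ∈ P, (p : ℤ) ∣ M := by
    intro p hp
    rw [hM]
    exact Int.natCast_dvd_natCast.2 (dvd_prod_of_mem _ hp)
  have hj : ∀ t ∈ T, 1 ≤ t.1.2.1 ∧ t.1.2.1 ≤ K := by
    intro t ht
    rw [hT, mem_product] at ht
    exact (mem_CC.1 ht.1).2.1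
  -- the zeros
  set Z : (ℕ × ℕ × ℕ × ℤ) × ℕ → Finset ℤ := fun t =>
    I.filter (fun m => ff t.1 t.2 (b + M * m) = 0) with hZ
  have hZ1 : ∀ t ∈ T, (Z t).card ≤ 1 := by
    intro t ht
    rw [card_le_one]
    intro m hm m' hm'
    rw [hZ, mem_filter] at hm hm'
    have h2 := hm.2
    have h3 := hm'.2
    rw [ff_affine] at h2 h3
    have h4 : M * (t.1.2.1 : ℤ) ≠ 0 := by
      refine mul_ne_zero hM0 ?_
      have := (hj t ht).1
      exact_mod_cast (by omega : t.1.2.1 ≠ 0)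
    have h5 : (M * (t.1.2.1 : ℤ)) * m = (M * (t.1.2.1 : ℤ)) * m' := by linarith
    exact mul_left_cancel₀ h4 h5
  -- the bad tuples
  set Tb := T.filter (fun t => (P.filter (fun p : ℕ => (p : ℤ) ∣ ff t.1 t.2 b)).card < L) with hTb
  set W : (ℕ × ℕ × ℕ × ℤ) × ℕ → Finset ℤ := fun t =>
    I.filter (fun m => (Q.filter (fun p : ℕ => (p : ℤ) ∣ (M * (t.1.2.1 : ℤ)) * m +
      ff t.1 t.2 b)).card < L) with hW
  have hsub : I.filter (fun m => ∃ t ∈ T,
      (ff t.1 t.2 (b + M * m)).natAbs.primeFactors.card < L) ⊆ T.biUnion Z ∪ Tb.biUnion W := by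
    intro m hm
    rw [mem_filter] at hm
    obtain ⟨hmI, t, ht, hlt⟩ := hm
    rw [mem_union, mem_biUnion, mem_biUnion]
    by_cases hz : ff t.1 t.2 (b + M * m) = 0
    · left
      exact ⟨t, ht, by rw [hZ, mem_filter]; exact ⟨hmI, hz⟩⟩
    · right
      refine ⟨t, ?_, ?_⟩
      · rw [hTb, mem_filter]
        refine ⟨ht, ?_⟩
        refine lt_of_le_of_lt ?_ hlt
        have h2 := card_le_omega P (fun p hp => (hP p hp).1) _ hz
        refine le_trans (le_of_eq ?_) h2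
        congr 1
        apply filter_congr
        intro p hp
        rw [ff_affine]
        constructor
        · intro h
          exact dvd_add (((hpM p hp).mul_right _).mul_right _) h
        · intro h
          exact (dvd_add_right (((hpM p hp).mul_right _).mul_right _)).1 h
      · rw [hW, mem_filter]
        refine ⟨hmI, ?_⟩
        refine lt_of_le_of_lt ?_ hlt
        have h2 := card_le_omega Q (fun p hp => (hQ p hp).1) _ hz
        rw [ff_affine] at h2
        rw [ff_affine]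
        exact h2
  -- number of bad tuples
  have hTbc : (Tb.card : ℝ) ≤ S1 * 2 ^ L := by
    have h2 : (Tb.card : ℝ) * (1 / 2) ^ L ≤ S1 := by
      calc (Tb.card : ℝ) * (1 / 2) ^ L = ∑ t ∈ Tb, (1 / 2 : ℝ) ^ L := by
            rw [sum_const, nsmul_eq_mul]
        _ ≤ ∑ t ∈ Tb, ∏ p ∈ P, (if (p : ℤ) ∣ ff t.1 t.2 b then (1 / 2 : ℝ) else 1) := by
          apply sum_le_sum
          intro t ht
          rw [hTb, mem_filter] at ht
          rw [prod_ite, prod_const, prod_const, one_pow, mul_one]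
          exact pow_le_pow_of_le_one (by norm_num) (by norm_num) ht.2.le
        _ ≤ ∑ t ∈ T, ∏ p ∈ P, (if (p : ℤ) ∣ ff t.1 t.2 b then (1 / 2 : ℝ) else 1) := by
          apply sum_le_sum_of_subset_of_nonneg (filter_subset _ _)
          intro t _ _
          apply prod_nonneg
          intro p _
          split_ifs <;> norm_num
        _ ≤ S1 := hS1
    calc (Tb.card : ℝ) = (Tb.card : ℝ) * (1 / 2) ^ L * 2 ^ L := by
          rw [mul_assoc, ← mul_pow]; norm_num
      _ ≤ S1 * 2 ^ L := mul_le_mul_of_nonneg_right h2 (by positivity)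
  -- number of bad m for a tuple
  have hθ : 0 < 1 - θ := by linarith
  have hWc : ∀ t ∈ Tb, ((W t).card : ℝ) ≤ ((1 - θ)⁻¹) ^ L * E := by
    intro t ht
    rw [hTb, mem_filter] at ht
    have hA : ∀ p ∈ Q, ¬ (p : ℤ) ∣ M * (t.1.2.1 : ℤ) := by
      intro p hp hdvd
      obtain ⟨hpp, hpK, hpP⟩ := hQ p hp
      rcases (Nat.prime_iff_prime_int.1 hpp).dvd_or_dvd hdvd with h | h
      · rw [hM, Int.natCast_dvd_natCast] at h
        obtain ⟨q, hq, hpq⟩ := (hpp.prime.dvd_finset_prod_iff _).1 h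
        rw [(Nat.prime_dvd_prime_iff_eq hpp (hP q hq).1).1 hpq] at hpP
        exact hpP hq
      · rw [Int.natCast_dvd_natCast] at h
        have h2 := hj t ht.1
        have h3 := Nat.le_of_dvd (by omega) h
        omega
    have h2 := sieve Q (fun p hp => (hQ p hp).1) θ h0 h1.le (M * (t.1.2.1 : ℤ))
      (ff t.1 t.2 b) m₀ hA N k hk
    have h3 : ((W t).card : ℝ) * (1 - θ) ^ L ≤ E := by
      calc ((W t).card : ℝ) * (1 - θ) ^ L = ∑ m ∈ W t, (1 - θ) ^ L := by
            rw [sum_const, nsmul_eq_mul]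
        _ ≤ ∑ m ∈ W t, (1 - θ) ^ (Q.filter (fun p : ℕ => (p : ℤ) ∣ (M * (t.1.2.1 : ℤ)) * m +
              ff t.1 t.2 b)).card := by
          apply sum_le_sum
          intro m hm
          rw [hW, mem_filter] at hm
          exact pow_le_pow_of_le_one hθ.le (by linarith) hm.2.le
        _ ≤ ∑ m ∈ I, (1 - θ) ^ (Q.filter (fun p : ℕ => (p : ℤ) ∣ (M * (t.1.2.1 : ℤ)) * m +
              ff t.1 t.2 b)).card := by
          apply sum_le_sum_of_subset_of_nonneg (filter_subset _ _)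
          intro m _ _
          positivity
        _ ≤ E := h2.trans hE
    calc ((W t).card : ℝ) = ((1 - θ)⁻¹) ^ L * (((W t).card : ℝ) * (1 - θ) ^ L) := by
          rw [inv_pow]; field_simp
      _ ≤ ((1 - θ)⁻¹) ^ L * E := mul_le_mul_of_nonneg_left h3 (by positivity)
  -- conclusion
  calc (((I.filter (fun m => ∃ t ∈ T,
      (ff t.1 t.2 (b + M * m)).natAbs.primeFactors.card < L)).card : ℕ) : ℝ)
      ≤ ((T.biUnion Z ∪ Tb.biUnion W).card : ℝ) := by exact_mod_cast card_le_card hsub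
    _ ≤ ((T.biUnion Z).card : ℝ) + ((Tb.biUnion W).card : ℝ) := by
      exact_mod_cast card_union_le _ _
    _ ≤ (∑ t ∈ T, ((Z t).card : ℝ)) + ∑ t ∈ Tb, ((W t).card : ℝ) := by
      apply add_le_add
      · exact_mod_cast card_biUnion_le
      · exact_mod_cast card_biUnion_le
    _ ≤ (∑ t ∈ T, (1 : ℝ)) + ∑ t ∈ Tb, ((1 - θ)⁻¹) ^ L * E := by
      apply add_le_add
      · apply sum_le_sum
        intro t ht
        exact_mod_cast hZ1 t ht
      · exact sum_le_sum hWc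
    _ = ((CC K).card : ℝ) * Hn + (Tb.card : ℝ) * (((1 - θ)⁻¹) ^ L * E) := by
      rw [sum_const, sum_const, nsmul_eq_mul, nsmul_eq_mul, hT, card_product, card_range]
      push_cast
      ring
    _ ≤ ((CC K).card : ℝ) * Hn + S1 * 2 ^ L * (((1 - θ)⁻¹) ^ L * E) := by
      have : 0 ≤ ((1 - θ)⁻¹) ^ L * E := by positivity
      have h5 := mul_le_mul_of_nonneg_right hTbc this
      linarith

end Pool.Agent.R507.MP28
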