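import Mathlib

set_option autoImplicit false

/-!
# Numerical part
-/

namespace Pool.Agent.R507.MP28

open Finset Filter Asymptotics

lemma final_num (δ D C2 C5 C y u L N A : ℝ) (hδ : 0 < δ) (hδ1 : δ ≤ 1) (hD : 0 ≤ D) (hC : 0 ≤ C)
    (hL : D * L ≤ D + (δ / 8) * u) (hu0 : 1 ≤ u) (hlog : Real.log u ≤ (δ / 16) * u)
    (hu : (4 / δ) * (|C2| + |C5| + 8 * C + D + 3) ≤ u) (hN : 8 * Real.exp (y / 2) ≤ N)
    (hyu : 2 * u + |C2| + D ≤ y / 4) (hA : A ≤ Real.exp (y / 2)) :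
    A + Real.exp ((1 - δ) * u + C2) * (Real.exp (D * L) *
      (N * (Real.exp (-(1 - δ / 2) * (u - 2 * Real.log u - C5)) +
        Real.exp (8 * (u + C) - 20 * u)) + Real.exp (y / 4))) ≤ N / 2 := by
  have hN0 : 0 ≤ N := by have := Real.exp_pos (y / 2); linarith
  have hlogu : 0 ≤ Real.log u := Real.log_nonneg hu0
  have hu' : |C2| + |C5| + 8 * C + D + 3 ≤ (δ / 4) * u := by
    rw [div_mul_eq_mul_div, div_le_iff₀ hδ] at hu
    linarith
  have ha2 := abs_nonneg C2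
  have ha5 := abs_nonneg C5
  have hb2 := le_abs_self C2
  have hb5 := le_abs_self C5
  have hexp3 : Real.exp (-3) ≤ 1 / 8 := by
    have h1 : (4 : ℝ) ≤ Real.exp 3 := by have := Real.add_one_le_exp (3 : ℝ); linarith
    have h2 : (2 : ℝ) ≤ Real.exp 1 := by have := Real.add_one_le_exp (1 : ℝ); linarith
    have h3 : Real.exp 3 = Real.exp 1 ^ 3 := by
      rw [← Real.exp_nat_mul]; norm_num
    have h4 : (8 : ℝ) ≤ Real.exp 3 := by
      rw [h3]
      calc (8 : ℝ) = 2 ^ 3 := by norm_num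
        _ ≤ _ := pow_le_pow_left₀ (by norm_num) h2 3
    rw [Real.exp_neg, ← one_div]
    exact one_div_le_one_div_of_le (by norm_num) h4
  have hsplit : Real.exp ((1 - δ) * u + C2) * (Real.exp (D * L) *
      (N * (Real.exp (-(1 - δ / 2) * (u - 2 * Real.log u - C5)) +
        Real.exp (8 * (u + C) - 20 * u)) + Real.exp (y / 4))) =
      N * Real.exp ((1 - δ) * u + C2 + D * L + -(1 - δ / 2) * (u - 2 * Real.log u - C5)) +
      N * Real.exp ((1 - δ) * u + C2 + D * L + (8 * (u + C) - 20 * u)) +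
      Real.exp ((1 - δ) * u + C2 + D * L + y / 4) := by
    simp only [Real.exp_add]
    ring
  rw [hsplit]
  have e1 : (1 - δ) * u + C2 + D * L + -(1 - δ / 2) * (u - 2 * Real.log u - C5) ≤ -3 := by
    have h1 : (1 - δ / 2) * (2 * Real.log u) ≤ 2 * Real.log u := by nlinarith
    have h2 : (1 - δ / 2) * C5 ≤ |C5| := by
      calc (1 - δ / 2) * C5 ≤ (1 - δ / 2) * |C5| :=
            mul_le_mul_of_nonneg_left hb5 (by linarith)
        _ ≤ 1 * |C5| := mul_le_mul_of_nonneg_right (by linarith) ha5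
        _ = |C5| := one_mul _
    nlinarith
  have e2 : (1 - δ) * u + C2 + D * L + (8 * (u + C) - 20 * u) ≤ -3 := by
    have h1 : δ * u ≤ u := by nlinarith
    have h2 : 0 ≤ δ * u := by positivity
    nlinarith
  have e3 : (1 - δ) * u + C2 + D * L + y / 4 ≤ y / 2 := by
    have h1 : δ * u ≤ u := by nlinarith
    have h2 : 0 ≤ δ * u := by positivity
    nlinarith
  have f1 := mul_le_mul_of_nonneg_left ((Real.exp_le_exp.2 e1).trans hexp3) hN0
  have f2 := mul_le_mul_of_nonneg_left ((Real.exp_le_exp.2 e2).trans hexp3) hN0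
  have f3 := Real.exp_le_exp.2 e3
  linarith

/-- all the conditions on `y` -/
lemma ev_all (K ε κ δ D C2 U0 c : ℝ) (hK : 2 ≤ K) (h0 : 0 < ε) (h1 : ε < 1) (hκ : 0 < κ)
    (hδ : 0 < δ) (hD : 0 < D) (hc : 0 ≤ c) :
    ∀ᶠ y : ℝ in atTop, 4 ≤ y ∧ 1 ≤ ε * y / κ ∧ K * Real.sqrt (ε * y / κ) ≤ y ∧
      U0 ≤ Real.log y ∧ 2 ≤ Real.log y ∧
      Real.log (Real.log y) ≤ (δ / 16) * Real.log y ∧
      D * (Real.log y) ^ (1 - ε) ≤ (δ / 8) * Real.log y ∧
      384 * (Real.log y) ^ 2 ≤ y ∧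
      2 * Real.log y + |C2| + D ≤ y / 4 ∧
      c * (K * y + 1) ≤ Real.exp (y / 2) ∧
      8 * Real.exp (y / 2) ≤ Real.exp ((1 - ε / 4) * y) / K - 1 ∧
      2 * Real.exp ((1 - ε) * y) ≤ Real.exp ((1 - ε / 4) * y) / K - 1 ∧
      11 * Real.log y ≤ y / 48 := by
  have E1 : ∀ a : ℝ, ∀ᶠ y : ℝ in atTop, a ≤ y := fun a => eventually_ge_atTop a
  have E2 : ∀ a : ℝ, ∀ᶠ y : ℝ in atTop, a ≤ Real.log y := fun a =>
    Real.tendsto_log_atTop.eventually_ge_atTop a
  have E3 : ∀ a : ℝ, 0 < a → ∀ᶠ y : ℝ in atTop, Real.log y ≤ a * y := by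
    intro a ha
    filter_upwards [Real.isLittleO_log_id_atTop.bound ha, E1 0] with y hy hy0
    simp only [id, Real.norm_eq_abs] at hy
    rw [abs_of_nonneg hy0] at hy
    exact (le_abs_self _).trans hy
  have E4 : ∀ᶠ u : ℝ in atTop, D * u ^ (1 - ε) ≤ (δ / 8) * u := by
    have : Tendsto (fun u : ℝ => u ^ ε) atTop atTop := tendsto_rpow_atTop h0
    filter_upwards [this.eventually_ge_atTop (D / (δ / 8)), E1 1] with u hu hu1
    have h2 : u ^ (1 - ε) = u / u ^ ε := by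
      rw [Real.rpow_sub (by linarith), Real.rpow_one]
    have h3 : 0 < u ^ ε := Real.rpow_pos_of_pos (by linarith) _
    rw [h2, mul_div_assoc', div_le_iff₀ h3]
    rw [div_le_iff₀ (by positivity)] at hu
    nlinarith
  have E5 : ∀ᶠ y : ℝ in atTop, 384 * (Real.log y) ^ 2 ≤ y := by
    have h := (Real.isLittleO_pow_log_id_atTop (n := 2)).bound (show (0 : ℝ) < 1 / 384 by norm_num)
    filter_upwards [h, E1 0] with y hy hy0
    simp only [id, Real.norm_eq_abs] at hy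
    rw [abs_of_nonneg hy0, abs_of_nonneg (by positivity)] at hy
    linarith
  have E6 : ∀ a b : ℝ, 0 < b → ∀ᶠ y : ℝ in atTop, a ≤ Real.exp (b * y) := by
    intro a b hb
    have : Tendsto (fun y : ℝ => Real.exp (b * y)) atTop atTop :=
      Real.tendsto_exp_atTop.comp (tendsto_id.const_mul_atTop hb)
    exact this.eventually_ge_atTop a
  have E7 : ∀ a b b' : ℝ, 0 ≤ a → 0 ≤ b' → b' < b → ∀ᶠ y : ℝ in atTop,
      a * Real.exp (b' * y) ≤ Real.exp (b * y) / K - 1 := by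
    intro a b b' ha hb' hbb
    filter_upwards [E6 (K * (a + 1)) (b - b') (by linarith), E1 0] with y hy hy0
    have h2 : Real.exp (b * y) = Real.exp (b' * y) * Real.exp ((b - b') * y) := by
      rw [← Real.exp_add]; ring_nf
    have h3 : 1 ≤ Real.exp (b' * y) := Real.one_le_exp (by positivity)
    have h4 : (a + 1) * Real.exp (b' * y) ≤ Real.exp (b * y) / K := by
      rw [le_div_iff₀ (by linarith), h2]
      nlinarith
    linarith
  have E8 : ∀ᶠ y : ℝ in atTop, c * (K * y + 1) ≤ Real.exp (y / 2) := by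
    filter_upwards [E6 (c * (4 * K + 1)) (1 / 4) (by norm_num), E1 0] with y hy hy0
    have h2 : Real.exp (y / 2) = Real.exp (1 / 4 * y) * Real.exp (1 / 4 * y) := by
      rw [← Real.exp_add]; ring_nf
    have h3 : 1 / 4 * y + 1 ≤ Real.exp (1 / 4 * y) := Real.add_one_le_exp _
    have h4 : 0 ≤ c * (4 * K + 1) := by positivity
    rw [h2]
    calc c * (K * y + 1) ≤ c * (4 * K + 1) * (1 / 4 * y + 1) := by
          have : 0 ≤ c * (3 * K + y / 4) := by positivity
          nlinarith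
      _ ≤ Real.exp (1 / 4 * y) * Real.exp (1 / 4 * y) :=
          mul_le_mul hy h3 (by positivity) (by positivity)
  have L1 : ∀ᶠ y : ℝ in atTop, Real.log (Real.log y) ≤ (δ / 16) * Real.log y :=
    Real.tendsto_log_atTop.eventually (E3 (δ / 16) (by positivity))
  have L2 : ∀ᶠ y : ℝ in atTop, D * (Real.log y) ^ (1 - ε) ≤ (δ / 8) * Real.log y :=
    Real.tendsto_log_atTop.eventually E4
  filter_upwards [E1 4, E1 (κ / ε), E1 (K ^ 2 * ε / κ), E2 U0, E2 2, L1, L2, E5,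
    E3 (1 / 16) (by norm_num), E1 (8 * (|C2| + D)), E8, E7 8 (1 - ε / 4) (1 / 2) (by norm_num)
      (by norm_num) (by linarith), E7 2 (1 - ε / 4) (1 - ε) (by norm_num) (by linarith)
      (by linarith), E3 (1 / 528) (by norm_num)] with
    y h4 hy2 hy3 hy4 hy5 hy6 hy7 hy8 hy9 hy10 hy11 hy12 hy13 hy14
  refine ⟨h4, ?_, ?_, hy4, hy5, hy6, hy7, hy8, ?_, hy11, ?_, hy13, ?_⟩
  · rw [div_le_iff₀ h0] at hy2
    rw [le_div_iff₀ hκ]
    linarith
  · have h5 : 0 ≤ ε * y / κ := by positivity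
    have h6 : Real.sqrt (ε * y / κ) ≤ y / K := by
      apply Real.sqrt_le_iff.2
      refine ⟨by positivity, ?_⟩
      rw [div_pow, div_le_div_iff₀ hκ (by positivity)]
      rw [div_le_iff₀ hκ] at hy3
      nlinarith
    rw [le_div_iff₀ (by linarith)] at h6
    linarith
  · linarith
  · have : (1 / 2 : ℝ) * y = y / 2 := by ring
    rw [this] at hy12
    exact hy12
  · linarith

end Pool.Agent.R507.MP28
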