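import Pool.Agent.R507.MP28.Prim

set_option autoImplicit false

/-!
# The set of primes with small orders
-/

namespace Pool.Agent.R507.MP28

open Finset

/-- odd integers in `(K, R]` -/
def RR (K R : ℕ) : Finset ℕ := (Ioc K R).filter Odd

lemma sum_RR (K R : ℕ) : (1 / 2 : ℝ) * (Real.log R - 1 - K) ≤ ∑ r ∈ RR K R, 1 / (r : ℝ) := by
  -- compare with `∑_{K < s ≤ R / 2} 1 / (2 s)`
  have h1 : ∑ s ∈ Ioc K (R / 2), 1 / (2 * (s : ℝ)) ≤ ∑ r ∈ RR K R, 1 / (r : ℝ) := by
    have h2 : ∑ s ∈ Ioc K (R / 2), 1 / (2 * (s : ℝ)) ≤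
        ∑ s ∈ Ioc K (R / 2), 1 / (((2 * s - 1 : ℕ)) : ℝ) := by
      apply sum_le_sum
      intro s hs
      rw [mem_Ioc] at hs
      apply one_div_le_one_div_of_le
      · have : 0 < 2 * s - 1 := by omega
        exact_mod_cast this
      · rw [Nat.cast_sub (by omega)]
        push_cast
        linarith
    refine h2.trans ?_
    rw [← sum_image (f := fun r : ℕ => 1 / (r : ℝ)) (g := fun s => 2 * s - 1)
      (s := Ioc K (R / 2))]
    · apply sum_le_sum_of_subset_of_nonneg
      · intro r hr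
        rw [mem_image] at hr
        obtain ⟨s, hs, rfl⟩ := hr
        rw [mem_Ioc] at hs
        unfold RR
        rw [mem_filter, mem_Ioc]
        refine ⟨⟨by omega, by omega⟩, ⟨s - 1, by omega⟩⟩
      · intro r _ _
        positivity
    · intro a ha b hb hab
      rw [mem_coe, mem_Ioc] at ha hb
      have : 2 * a - 1 = 2 * b - 1 := hab
      omega
  refine le_trans ?_ h1
  have h3 : ∑ s ∈ Ioc K (R / 2), 1 / (2 * (s : ℝ)) = 1 / 2 * ∑ s ∈ Ioc K (R / 2), 1 / (s : ℝ) := by
    rw [mul_sum]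
    apply sum_congr rfl
    intro s _
    rw [one_div, mul_inv, one_div, one_div]
  rw [h3]
  apply mul_le_mul_of_nonneg_left _ (by norm_num)
  have h4 : Real.log ((R / 2 : ℕ) + 1 : ℕ) ≤ ∑ s ∈ Icc 1 (R / 2), 1 / (s : ℝ) := by
    have := log_add_one_le_harmonic (R / 2)
    rw [harmonic_eq_sum_Icc] at this
    push_cast at this ⊢
    simpa [one_div] using this
  have h5 : ∑ s ∈ Icc 1 (R / 2), 1 / (s : ℝ) ≤ ∑ s ∈ Ioc K (R / 2), 1 / (s : ℝ) + K := by
    have h6 : Icc 1 (R / 2) ⊆ Ioc K (R / 2) ∪ Icc 1 K := by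
      intro s hs
      rw [mem_Icc] at hs
      rw [mem_union, mem_Ioc, mem_Icc]
      omega
    calc ∑ s ∈ Icc 1 (R / 2), 1 / (s : ℝ) ≤ ∑ s ∈ Ioc K (R / 2) ∪ Icc 1 K, 1 / (s : ℝ) :=
          sum_le_sum_of_subset_of_nonneg h6 (fun s _ _ => by positivity)
      _ ≤ ∑ s ∈ Ioc K (R / 2), 1 / (s : ℝ) + ∑ s ∈ Icc 1 K, 1 / (s : ℝ) := by
          have h := sum_union_inter (s₁ := Ioc K (R / 2)) (s₂ := Icc 1 K)
            (f := fun s : ℕ => 1 / (s : ℝ))
          have h' : 0 ≤ ∑ s ∈ Ioc K (R / 2) ∩ Icc 1 K, 1 / (s : ℝ) :=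
            sum_nonneg fun s _ => by positivity
          linarith
      _ ≤ _ := by
          have h7 : ∑ s ∈ Icc 1 K, 1 / (s : ℝ) ≤ ∑ s ∈ Icc 1 K, (1 : ℝ) := by
            apply sum_le_sum
            intro s hs
            rw [mem_Icc] at hs
            rw [div_le_one (by exact_mod_cast hs.1)]
            exact_mod_cast hs.1
          rw [sum_const, Nat.card_Icc, nsmul_eq_mul, mul_one] at h7
          have : ((K + 1 - 1 : ℕ) : ℝ) = K := by
            congr 1
          rw [this] at h7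
          linarith
  have h8 : Real.log R - 1 ≤ Real.log ((R / 2 : ℕ) + 1 : ℕ) := by
    rcases Nat.eq_zero_or_pos R with rfl | hR
    · simp
    have h9 : (R : ℝ) / 2 ≤ ((R / 2 + 1 : ℕ) : ℝ) := by
      rw [div_le_iff₀ (by norm_num)]
      have : R ≤ (R / 2 + 1) * 2 := by omega
      exact_mod_cast this
    have h10 : (0 : ℝ) < (R : ℝ) / 2 := by
      have : (0 : ℝ) < R := by exact_mod_cast hR
      linarith
    have h11 := Real.log_le_log h10 h9
    rw [Real.log_div (by positivity) (by norm_num)] at h11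
    have h12 : Real.log 2 ≤ 1 := by
      have := Real.log_two_lt_d9
      linarith
    linarith
  linarith

/-- the set of primes -/
lemma primes_set (K R : ℕ) (hK : 2 ≤ K) : ∃ P : Finset ℕ,
    (∀ p ∈ P, p.Prime ∧ K < p) ∧ P.card ≤ K * R ∧ ∏ p ∈ P, p ≤ K ^ (2 * K * R ^ 2) ∧
    ∀ a : ℕ, 2 ≤ a → a ≤ K → ∀ c : ℝ, 1 ≤ c →
      ∏ p ∈ P, (1 - 1 / (2 * c * (orderOf (a : ZMod p) : ℝ))) ≤
        Real.exp (-((Real.log R - 1 - K) / (8 * c))) := by
  classical
  have hex : ∀ a r : ℕ, 2 ≤ a → 3 ≤ r → Odd r → ∃ q : ℕ, q.Prime ∧ r < q ∧ q < a ^ (2 * r) ∧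
      orderOf ((a ^ 2 : ℕ) : ZMod q) = r ∧ 0 < orderOf (a : ZMod q) ∧
      orderOf (a : ZMod q) ≤ 2 * r := fun a r h1 h2 h3 => exists_prime_small_order a h1 r h2 h3
  choose! q hq1 hq2 hq3 hq4 hq5 hq6 using hex
  set S := Icc 2 K ×ˢ RR K R with hS
  have hmem : ∀ t ∈ S, 2 ≤ t.1 ∧ t.1 ≤ K ∧ 3 ≤ t.2 ∧ Odd t.2 ∧ K < t.2 ∧ t.2 ≤ R := by
    intro t ht
    rw [hS, mem_product, mem_Icc] at ht
    unfold RR at ht
    rw [mem_filter, mem_Ioc] at ht
    refine ⟨ht.1.1, ht.1.2, by omega, ht.2.2, ht.2.1.1, ht.2.1.2⟩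
  set P := S.image (fun t => q t.1 t.2) with hP
  have hPp : ∀ p ∈ P, p.Prime ∧ K < p := by
    intro p hp
    rw [hP, mem_image] at hp
    obtain ⟨t, ht, rfl⟩ := hp
    obtain ⟨h1, h2, h3, h4, h5, h6⟩ := hmem t ht
    exact ⟨hq1 _ _ h1 h3 h4, h5.trans (hq2 _ _ h1 h3 h4)⟩
  have hScard : S.card ≤ K * R := by
    rw [hS, card_product]
    apply Nat.mul_le_mul
    · rw [Nat.card_Icc]; omega
    · unfold RR
      refine (card_filter_le _ _).trans ?_
      rw [Nat.card_Ioc]; omega
  refine ⟨P, hPp, card_image_le.trans hScard, ?_, ?_⟩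
  · calc ∏ p ∈ P, p ≤ ∏ t ∈ S, q t.1 t.2 := by
          rw [hP]
          have key : ∀ U : Finset (ℕ × ℕ), U ⊆ S →
              ∏ p ∈ U.image (fun t => q t.1 t.2), p ≤ ∏ t ∈ U, q t.1 t.2 := by
            intro U
            induction U using Finset.induction_on with
            | empty => intro _; simp
            | insert t U htU ih =>
              intro hU
              have h1 := ih (fun s hs => hU (mem_insert_of_mem hs))
              obtain ⟨g1, g2, g3, g4, g5, g6⟩ := hmem t (hU (mem_insert_self _ _))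
              rw [image_insert, prod_insert htU]
              by_cases h : q t.1 t.2 ∈ U.image (fun t => q t.1 t.2)
              · rw [insert_eq_of_mem h]
                exact h1.trans (Nat.le_mul_of_pos_left _ (hq1 _ _ g1 g3 g4).pos)
              · rw [prod_insert h]
                exact Nat.mul_le_mul_left _ h1
          exact key S (Subset.refl _)
      _ ≤ ∏ t ∈ S, K ^ (2 * R) := by
          apply prod_le_prod'
          intro t ht
          obtain ⟨h1, h2, h3, h4, h5, h6⟩ := hmem t ht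
          calc q t.1 t.2 ≤ t.1 ^ (2 * t.2) := (hq3 _ _ h1 h3 h4).le
            _ ≤ K ^ (2 * t.2) := Nat.pow_le_pow_left h2 _
            _ ≤ K ^ (2 * R) := Nat.pow_le_pow_right (by omega) (by omega)
      _ = (K ^ (2 * R)) ^ S.card := by rw [prod_const]
      _ ≤ (K ^ (2 * R)) ^ (K * R) := Nat.pow_le_pow_right (pow_pos (by omega) _) hScard
      _ = K ^ (2 * K * R ^ 2) := by rw [← pow_mul]; congr 1; ring
  · intro a ha haK c hc
    have hfac : ∀ p ∈ P, 0 ≤ 1 - 1 / (2 * c * (orderOf (a : ZMod p) : ℝ)) ∧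
        1 - 1 / (2 * c * (orderOf (a : ZMod p) : ℝ)) ≤ 1 := by
      intro p _
      rcases Nat.eq_zero_or_pos (orderOf (a : ZMod p)) with h | h
      · rw [h]; simp
      · have h1 : (1 : ℝ) ≤ (orderOf (a : ZMod p) : ℝ) := by exact_mod_cast h
        constructor
        · rw [sub_nonneg, div_le_one (by positivity)]
          nlinarith
        · have : 0 ≤ 1 / (2 * c * (orderOf (a : ZMod p) : ℝ)) := by positivity
          linarith
    -- restrict to the primes belonging to `a`
    have hmemR : ∀ r ∈ RR K R, 3 ≤ r ∧ Odd r ∧ K < r ∧ r ≤ R := by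
      intro r hr
      unfold RR at hr
      rw [mem_filter, mem_Ioc] at hr
      exact ⟨by omega, hr.2, hr.1.1, hr.1.2⟩
    have hinj : Set.InjOn (fun r => q a r) (RR K R : Set ℕ) := by
      intro r hr r' hr' h
      rw [mem_coe] at hr hr'
      obtain ⟨g1, g2, -, -⟩ := hmemR r hr
      obtain ⟨g1', g2', -, -⟩ := hmemR r' hr'
      have e1 := hq4 a r ha g1 g2
      have e2 := hq4 a r' ha g1' g2'
      have h' : q a r = q a r' := h
      rw [h'] at e1
      exact e1.symm.trans e2
    have hsub : (RR K R).image (fun r => q a r) ⊆ P := by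
      intro p hp
      rw [mem_image] at hp
      obtain ⟨r, hr, rfl⟩ := hp
      rw [hP, mem_image]
      exact ⟨(a, r), by rw [hS, mem_product, mem_Icc]; exact ⟨⟨ha, haK⟩, hr⟩, rfl⟩
    calc ∏ p ∈ P, (1 - 1 / (2 * c * (orderOf (a : ZMod p) : ℝ)))
        ≤ ∏ p ∈ (RR K R).image (fun r => q a r),
          (1 - 1 / (2 * c * (orderOf (a : ZMod p) : ℝ))) := by
          rw [← prod_sdiff hsub]
          have h1 : ∏ p ∈ P \ (RR K R).image (fun r => q a r),
              (1 - 1 / (2 * c * (orderOf (a : ZMod p) : ℝ))) ≤ 1 :=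
            prod_le_one (fun p hp => (hfac p (mem_sdiff.1 hp).1).1)
              (fun p hp => (hfac p (mem_sdiff.1 hp).1).2)
          have h2 : 0 ≤ ∏ p ∈ (RR K R).image (fun r => q a r),
              (1 - 1 / (2 * c * (orderOf (a : ZMod p) : ℝ))) :=
            prod_nonneg fun p hp => (hfac p (hsub hp)).1
          nlinarith
      _ = ∏ r ∈ RR K R, (1 - 1 / (2 * c * (orderOf (a : ZMod (q a r)) : ℝ))) :=
          prod_image (fun r hr r' hr' h => hinj hr hr' h)
      _ ≤ ∏ r ∈ RR K R, Real.exp (-(1 / (4 * c) * (1 / (r : ℝ)))) := by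
          apply prod_le_prod
          · intro r hr
            exact (hfac _ (hsub (mem_image_of_mem _ hr))).1
          · intro r hr
            obtain ⟨g1, g2, -, -⟩ := hmemR r hr
            have h1 := Real.add_one_le_exp (-(1 / (4 * c) * (1 / (r : ℝ))))
            refine le_trans ?_ h1
            have h2 : (0 : ℝ) < (orderOf (a : ZMod (q a r)) : ℝ) := by
              exact_mod_cast hq5 a r ha g1 g2
            have h3 : (orderOf (a : ZMod (q a r)) : ℝ) ≤ 2 * r := by
              exact_mod_cast hq6 a r ha g1 g2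
            have hr0 : (0 : ℝ) < r := by
              have : 0 < r := by omega
              exact_mod_cast this
            have h4 : 1 / (4 * c) * (1 / (r : ℝ)) ≤
                1 / (2 * c * (orderOf (a : ZMod (q a r)) : ℝ)) := by
              rw [one_div_mul_one_div]
              apply one_div_le_one_div_of_le (by positivity)
              nlinarith
            linarith
      _ = Real.exp (-(1 / (4 * c) * ∑ r ∈ RR K R, 1 / (r : ℝ))) := by
          rw [← Real.exp_sum]
          congr 1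
          rw [mul_sum, sum_neg_distrib]
      _ ≤ _ := by
          apply Real.exp_le_exp.2
          have h1 := sum_RR K R
          have h2 : 1 / (4 * c) * ((1 / 2 : ℝ) * (Real.log R - 1 - K)) ≤
              1 / (4 * c) * ∑ r ∈ RR K R, 1 / (r : ℝ) :=
            mul_le_mul_of_nonneg_left h1 (by positivity)
          have h3 : 1 / (4 * c) * ((1 / 2 : ℝ) * (Real.log R - 1 - K)) =
              (Real.log R - 1 - K) / (8 * c) := by
            field_simp
            ring
          linarith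

end Pool.Agent.R507.MP28
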