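import Mathlib
import Pool.Agent.Erdos456.Mertens

set_option autoImplicit false

/-!
# The sum of the reciprocals of the sieving primes
-/

namespace Pool.Agent.R507.MP28

open Finset

/-- the sieving primes -/
def QQ (K : ℕ) (P : Finset ℕ) (z : ℕ) : Finset ℕ :=
  ((Icc 1 z).filter Nat.Prime).filter (fun p => K < p ∧ p ∉ P)

lemma mem_QQ {K : ℕ} {P : Finset ℕ} {z p : ℕ} :
    p ∈ QQ K P z ↔ (p ≤ z ∧ p.Prime) ∧ K < p ∧ p ∉ P := by
  unfold QQ
  rw [mem_filter, mem_filter, mem_Icc]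
  constructor
  · rintro ⟨⟨⟨h1, h2⟩, h3⟩, h4⟩
    exact ⟨⟨h2, h3⟩, h4⟩
  · rintro ⟨⟨h2, h3⟩, h4⟩
    exact ⟨⟨⟨h3.one_lt.le, h2⟩, h3⟩, h4⟩

lemma card_QQ (K : ℕ) (P : Finset ℕ) (z : ℕ) : (QQ K P z).card ≤ z := by
  calc (QQ K P z).card ≤ (Icc 1 z).card :=
        card_le_card ((filter_subset _ _).trans (filter_subset _ _))
    _ = z := by simp

lemma sum_QQ_le (K : ℕ) (P : Finset ℕ) (z : ℕ) : ∑ p ∈ QQ K P z, 1 / (p : ℝ) ≤
    ∑ p ∈ (Icc 1 z).filter Nat.Prime, (1 : ℝ) / p :=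
  sum_le_sum_of_subset_of_nonneg (filter_subset _ _) (fun _ _ _ => by positivity)

lemma sum_QQ_ge (K : ℕ) (P : Finset ℕ) (z Y : ℕ) (y : ℝ) (hP : ∀ p ∈ P, p.Prime)
    (hy : 0 < y) (hY : y ≤ (Y : ℝ) + 1) (hc : (P.card : ℝ) ≤ y) :
    ∑ p ∈ (Icc 1 z).filter Nat.Prime, (1 : ℝ) / p -
      (K + (∑ p ∈ (Icc 1 Y).filter Nat.Prime, (1 : ℝ) / p) + 1) ≤
    ∑ p ∈ QQ K P z, 1 / (p : ℝ) := by
  classical
  have h1 : ∑ p ∈ (Icc 1 z).filter Nat.Prime, (1 : ℝ) / p =
      ∑ p ∈ QQ K P z, 1 / (p : ℝ) +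
      ∑ p ∈ ((Icc 1 z).filter Nat.Prime).filter (fun p => ¬ (K < p ∧ p ∉ P)), (1 : ℝ) / p := by
    unfold QQ
    rw [sum_filter_add_sum_filter_not]
  have h2 : ∑ p ∈ ((Icc 1 z).filter Nat.Prime).filter (fun p => ¬ (K < p ∧ p ∉ P)), (1 : ℝ) / p ≤
      ∑ p ∈ Icc 1 K, (1 : ℝ) / p + ∑ p ∈ P, (1 : ℝ) / p := by
    calc ∑ p ∈ ((Icc 1 z).filter Nat.Prime).filter (fun p => ¬ (K < p ∧ p ∉ P)), (1 : ℝ) / p
        ≤ ∑ p ∈ Icc 1 K ∪ P, (1 : ℝ) / p := by
          apply sum_le_sum_of_subset_of_nonneg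
          · intro p hp
            rw [mem_filter, mem_filter, mem_Icc] at hp
            rw [mem_union, mem_Icc]
            by_contra hcon
            push Not at hcon
            apply hp.2
            refine ⟨?_, hcon.2⟩
            exact hcon.1 hp.1.1.1
          · intro _ _ _; positivity
      _ ≤ ∑ p ∈ Icc 1 K, (1 : ℝ) / p + ∑ p ∈ P, (1 : ℝ) / p := by
          rw [← sum_union_inter]
          have : 0 ≤ ∑ p ∈ Icc 1 K ∩ P, (1 : ℝ) / p := sum_nonneg fun _ _ => by positivity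
          linarith
  have h3 : ∑ p ∈ Icc 1 K, (1 : ℝ) / p ≤ K := by
    calc ∑ p ∈ Icc 1 K, (1 : ℝ) / p ≤ ∑ p ∈ Icc 1 K, (1 : ℝ) := by
          apply sum_le_sum
          intro p hp
          rw [mem_Icc] at hp
          have : (1 : ℝ) ≤ p := by exact_mod_cast hp.1
          rw [div_le_one (by linarith)]
          exact this
      _ = K := by simp
  have h4 : ∑ p ∈ P, (1 : ℝ) / p ≤ (∑ p ∈ (Icc 1 Y).filter Nat.Prime, (1 : ℝ) / p) + 1 := by
    rw [← sum_filter_add_sum_filter_not P (fun p => p ≤ Y)]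
    apply add_le_add
    · apply sum_le_sum_of_subset_of_nonneg
      · intro p hp
        rw [mem_filter] at hp
        rw [mem_filter, mem_Icc]
        exact ⟨⟨(hP p hp.1).one_lt.le, hp.2⟩, hP p hp.1⟩
      · intro _ _ _; positivity
    · calc ∑ p ∈ P.filter (fun p => ¬ p ≤ Y), (1 : ℝ) / p
          ≤ ∑ p ∈ P.filter (fun p => ¬ p ≤ Y), (1 : ℝ) / y := by
            apply sum_le_sum
            intro p hp
            rw [mem_filter] at hp
            have h5 : Y + 1 ≤ p := by omega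
            have h6 : (Y : ℝ) + 1 ≤ p := by exact_mod_cast h5
            exact one_div_le_one_div_of_le hy (hY.trans h6)
        _ = ((P.filter (fun p => ¬ p ≤ Y)).card : ℝ) / y := by
            rw [sum_const, nsmul_eq_mul]; ring
        _ ≤ 1 := by
            rw [div_le_one hy]
            refine le_trans ?_ hc
            exact_mod_cast card_le_card (filter_subset _ _)
  linarith

/-- the lower and upper bounds in terms of `u = log y` -/
lemma sum_QQ_bounds : ∃ C : ℝ, 0 ≤ C ∧ ∀ (K : ℕ) (P : Finset ℕ) (y : ℝ),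
    (∀ p ∈ P, p.Prime) → 4 ≤ y → 1 ≤ Real.log y → (P.card : ℝ) ≤ y →
    8 * (Real.log y) ≤ y / (48 * Real.log y) →
    Real.log y - 2 * Real.log (Real.log y) - (K + C) ≤
      ∑ p ∈ QQ K P ⌊Real.exp (y / (48 * Real.log y))⌋₊, 1 / (p : ℝ) ∧
    ∑ p ∈ QQ K P ⌊Real.exp (y / (48 * Real.log y))⌋₊, 1 / (p : ℝ) ≤ Real.log y + C := by
  obtain ⟨C, hC⟩ := Pool.Agent.Erdos456.Mert.mertens_inv
  have hC0 : 0 ≤ C := (abs_nonneg _).trans (hC 3 le_rfl)
  refine ⟨2 * C + Real.log 96 + 1, ?_, ?_⟩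
  · have : 0 ≤ Real.log 96 := Real.log_nonneg (by norm_num)
    linarith
  intro K P y hP hy hu hc hyu
  set u := Real.log y with hudef
  have hl96 : 0 ≤ Real.log 96 := Real.log_nonneg (by norm_num)
  set v := y / (48 * u) with hv
  have hv8 : 8 ≤ v := by linarith
  set z := ⌊Real.exp v⌋₊ with hz
  have hexpv : (4 : ℝ) ≤ Real.exp v := by
    have := Real.add_one_le_exp v
    linarith
  have hzle : (z : ℝ) ≤ Real.exp v := Nat.floor_le (Real.exp_pos _).le
  have hzge : Real.exp v - 1 < z := Nat.sub_one_lt_floor _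
  have hz3 : 3 ≤ z := by
    have : (2 : ℝ) < z := by linarith
    exact_mod_cast this
  have hz3' : (3 : ℝ) ≤ z := by exact_mod_cast hz3
  have hlogz1 : v - Real.log 2 ≤ Real.log z := by
    have h1 : Real.exp v / 2 ≤ z := by linarith
    have h2 := Real.log_le_log (by positivity) h1
    rw [Real.log_div (Real.exp_pos _).ne' (by norm_num), Real.log_exp] at h2
    exact h2
  have hl2 : Real.log 2 < 1 := by have := Real.log_two_lt_d9; linarith
  have hlogz2 : y / (96 * u) ≤ Real.log z := by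
    have : y / (96 * u) = v / 2 := by rw [hv]; field_simp; norm_num
    rw [this]
    linarith
  have hlogz3 : Real.log z ≤ y := by
    calc Real.log z ≤ Real.log (Real.exp v) := Real.log_le_log (by linarith) hzle
      _ = v := Real.log_exp _
      _ ≤ y := by
        rw [hv, div_le_iff₀ (by positivity)]
        nlinarith
  have hlogz0 : 0 < Real.log z := by
    have : 0 < y / (96 * u) := by positivity
    linarith
  have hll1 : u - Real.log 96 - Real.log u ≤ Real.log (Real.log z) := by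
    have h2 := Real.log_le_log (by positivity) hlogz2
    rw [Real.log_div (by linarith) (by positivity), Real.log_mul (by norm_num) (by linarith)] at h2
    linarith
  have hll2 : Real.log (Real.log z) ≤ u := Real.log_le_log hlogz0 hlogz3
  have hmz := abs_le.1 (hC z hz3)
  -- the primes of P
  have hY3 : 3 ≤ ⌊y⌋₊ := Nat.le_floor (by norm_num; linarith)
  have hY3' : (3 : ℝ) ≤ ⌊y⌋₊ := by exact_mod_cast hY3
  have hmY := abs_le.1 (hC ⌊y⌋₊ hY3)
  have hYle : (⌊y⌋₊ : ℝ) ≤ y := Nat.floor_le (by linarith)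
  have hllY : Real.log (Real.log ⌊y⌋₊) ≤ Real.log u := by
    apply Real.log_le_log
    · exact Real.log_pos (by linarith)
    · exact Real.log_le_log (by linarith) hYle
  have hge := sum_QQ_ge K P z ⌊y⌋₊ y hP (by linarith) (Nat.lt_floor_add_one y).le hc
  have hle := sum_QQ_le K P z
  constructor
  · linarith [hmz.1, hmY.2]
  · linarith [hmz.2]

end Pool.Agent.R507.MP28
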