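import Mathlib
import Pool.Agent.R507.MP28.Core
import Pool.Agent.R507.MP28.Num
import Pool.Agent.R507.MP28.QSum
import Pool.Agent.R507.MP28.PSet

set_option autoImplicit false

/-!
# Assembly
-/

namespace Pool.Agent.R507.MP28

open Finset Filter

lemma prod_le_exp (Q : Finset ℕ) (hQ : ∀ p ∈ Q, p.Prime) (θ S : ℝ) (h0 : 0 ≤ θ) (h1 : θ ≤ 1)
    (hS : S ≤ ∑ p ∈ Q, 1 / (p : ℝ)) : ∏ p ∈ Q, (1 - θ / p) ≤ Real.exp (-θ * S) := by
  calc ∏ p ∈ Q, (1 - θ / p) ≤ ∏ p ∈ Q, Real.exp (-(θ / p)) := by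
        apply Finset.prod_le_prod
        · intro p hp
          have h2 : (1 : ℝ) ≤ p := by exact_mod_cast (hQ p hp).one_lt.le
          rw [sub_nonneg, div_le_one (by linarith)]
          linarith
        · intro p _
          have := Real.add_one_le_exp (-(θ / p))
          linarith
    _ = Real.exp (-θ * ∑ p ∈ Q, 1 / (p : ℝ)) := by
        rw [← Real.exp_sum, mul_sum]
        congr 1
        apply sum_congr rfl
        intro p _
        ring
    _ ≤ Real.exp (-θ * S) := by
        apply Real.exp_le_exp.2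
        nlinarith

lemma pow_fact_le (Λ u C : ℝ) (hΛ0 : 0 ≤ Λ) (hΛ : Λ ≤ u + C) (k : ℕ)
    (hk : 10 * u ≤ (k : ℝ) + 1) :
    Λ ^ (k + 1) / ((k + 1).factorial : ℝ) ≤ Real.exp (8 * (u + C) - 20 * u) := by
  have h1 := Real.pow_div_factorial_le_exp (x := 8 * Λ) (by positivity) (k + 1)
  have he : Real.exp 2 ≤ 8 := by
    have h2 : Real.exp 2 = Real.exp 1 ^ 2 := by
      rw [← Real.exp_nat_mul]; norm_num
    have h3 := Real.exp_one_lt_d9
    have h4 := Real.exp_pos 1
    rw [h2]
    nlinarith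
  have h5 : Real.exp (2 * ((k : ℝ) + 1)) ≤ 8 ^ (k + 1) := by
    have : Real.exp (2 * ((k : ℝ) + 1)) = Real.exp 2 ^ (k + 1) := by
      rw [← Real.exp_nat_mul]
      push_cast
      ring_nf
    rw [this]
    exact pow_le_pow_left₀ (Real.exp_pos _).le he _
  have h6 : Λ ^ (k + 1) / ((k + 1).factorial : ℝ) * 8 ^ (k + 1) ≤ Real.exp (8 * Λ) := by
    calc Λ ^ (k + 1) / ((k + 1).factorial : ℝ) * 8 ^ (k + 1)
        = (8 * Λ) ^ (k + 1) / ((k + 1).factorial : ℝ) := by rw [mul_pow]; ring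
      _ ≤ _ := h1
  have h7 : Λ ^ (k + 1) / ((k + 1).factorial : ℝ) * Real.exp (2 * ((k : ℝ) + 1)) ≤
      Real.exp (8 * Λ) :=
    (mul_le_mul_of_nonneg_left h5 (by positivity)).trans h6
  have h8 : Λ ^ (k + 1) / ((k + 1).factorial : ℝ) ≤
      Real.exp (8 * Λ) / Real.exp (2 * ((k : ℝ) + 1)) := by
    rw [le_div_iff₀ (Real.exp_pos _)]
    exact h7
  refine h8.trans ?_
  rw [← Real.exp_sub]
  apply Real.exp_le_exp.2
  linarith

lemma s1_bound (K c y r CR Hn : ℝ) (hK : 2 ≤ K) (hc1 : 1 ≤ c) (hy : 1 ≤ y)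
    (hHn : Hn ≤ K * y + 1) (hr : Real.log y / 2 - CR ≤ r) :
    c * Hn * Real.exp (-((r - 1 - K) / (8 * c))) ≤
      Real.exp ((1 - 1 / (16 * c)) * Real.log y +
        (Real.log (2 * K * c) + (CR + 1 + K) / (8 * c))) := by
  have h3 : Hn ≤ 2 * K * y := by nlinarith
  have h4 : Real.exp (-((r - 1 - K) / (8 * c))) ≤
      Real.exp (-((Real.log y / 2 - CR - 1 - K) / (8 * c))) := by
    apply Real.exp_le_exp.2
    apply neg_le_neg
    apply div_le_div_of_nonneg_right _ (by positivity)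
    linarith
  calc c * Hn * Real.exp (-((r - 1 - K) / (8 * c)))
      ≤ c * (2 * K * y) * Real.exp (-((Real.log y / 2 - CR - 1 - K) / (8 * c))) := by
        apply mul_le_mul (mul_le_mul_of_nonneg_left h3 (by linarith)) h4 (Real.exp_pos _).le
          (by positivity)
    _ = _ := by
      have h5 : c * (2 * K * y) = Real.exp (Real.log (2 * K * c) + Real.log y) := by
        rw [Real.exp_add, Real.exp_log (by positivity), Real.exp_log (by linarith)]
        ring
      rw [h5, ← Real.exp_add]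
      congr 1
      field_simp
      ring

theorem main_nat (K : ℕ) (hK : 2 ≤ K) (ε : ℝ) (h0 : 0 < ε) (h1 : ε < 1) :
    ∀ᶠ y : ℝ in atTop, ∃ G : Finset ℤ, (∀ n ∈ G, Real.exp y ≤ n ∧
      (n : ℝ) ≤ (1 + 1 / K) * Real.exp y ∧
      ∀ c ∈ CC K, ∀ h : ℕ, (h : ℝ) ≤ K * y →
        (Real.log y) ^ (1 - ε) ≤ ((ff c h n).natAbs.primeFactors.card : ℝ)) ∧
      Real.exp ((1 - ε) * y) ≤ G.card := by
  classical
  obtain ⟨C, hC0, hC⟩ := sum_QQ_bounds
  have hKr : (2 : ℝ) ≤ K := by exact_mod_cast hK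
  have hlogK : 0 < Real.log K := Real.log_pos (by linarith)
  set κ : ℝ := 8 * K * Real.log K with hκ
  have hκ0 : 0 < κ := by positivity
  set c : ℝ := ((CC K).card : ℝ) with hc
  have hc1 : 1 ≤ c := by
    rw [hc]; exact_mod_cast (card_pos.2 (CC_nonempty hK))
  set δ : ℝ := 1 / (16 * c) with hδ
  have hδ0 : 0 < δ := by positivity
  have hδ1 : δ ≤ 1 / 16 := by
    rw [hδ]
    exact one_div_le_one_div_of_le (by norm_num) (by linarith)
  set D : ℝ := Real.log (4 / δ) with hD
  have hD0 : 0 < D := by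
    apply Real.log_pos
    rw [lt_div_iff₀ hδ0]
    linarith
  set CR : ℝ := Real.log 2 - (1 / 2) * Real.log (ε / κ) with hCR
  set C2 : ℝ := Real.log (2 * K * c) + (CR + 1 + K) / (8 * c) with hC2
  set C5 : ℝ := K + C with hC5
  set U0 : ℝ := (4 / δ) * (|C2| + |C5| + 8 * C + D + 3) with hU0
  filter_upwards [ev_all K ε κ δ D C2 U0 c hKr h0 h1 hκ0 hδ0 hD0 (by linarith)] with
    y ⟨y1, y2, y3, y4, y5, y6, y7, y8, y9, y10, y11, y12, y13⟩
  set u := Real.log y with hu
  have hu0 : 0 < u := by linarith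
  -- the set P
  set ρ := Real.sqrt (ε * y / κ) with hρ
  have hρ1 : 1 ≤ ρ := by rw [hρ]; exact Real.one_le_sqrt.2 y2
  have hρ2 : ρ ^ 2 = ε * y / κ := Real.sq_sqrt (by positivity)
  set R := ⌊ρ⌋₊ with hR
  have hRle : (R : ℝ) ≤ ρ := Nat.floor_le (by linarith)
  have hRge : ρ / 2 ≤ R := by
    have h2 : 1 ≤ R := Nat.le_floor (by simpa using hρ1)
    have h3 : (1 : ℝ) ≤ R := by exact_mod_cast h2
    have h4 := Nat.lt_floor_add_one ρ
    rw [← hR] at h4
    linarith
  obtain ⟨P, hP, hPc, hPM, hPe⟩ := primes_set K R hK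
  have hPcy : (P.card : ℝ) ≤ y := by
    calc (P.card : ℝ) ≤ ((K * R : ℕ) : ℝ) := by exact_mod_cast hPc
      _ = K * R := by push_cast; ring
      _ ≤ K * ρ := mul_le_mul_of_nonneg_left hRle (by positivity)
      _ ≤ y := y3
  set M : ℕ := ∏ p ∈ P, p with hM
  have hM1 : 1 ≤ M := Nat.one_le_iff_ne_zero.2
    (prod_ne_zero_iff.2 fun p hp => (hP p hp).1.ne_zero)
  have hM1' : (1 : ℝ) ≤ M := by exact_mod_cast hM1
  have hMle : (M : ℝ) ≤ Real.exp (ε * y / 4) := by
    calc (M : ℝ) ≤ ((K ^ (2 * K * R ^ 2) : ℕ) : ℝ) := by exact_mod_cast hPM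
      _ = Real.exp (Real.log K * ((2 * K * R ^ 2 : ℕ) : ℝ)) := by
        rw [Real.exp_mul, Real.exp_log (by linarith), Real.rpow_natCast]
        push_cast; ring
      _ ≤ Real.exp (ε * y / 4) := by
        apply Real.exp_le_exp.2
        push_cast
        have h2 : (R : ℝ) ^ 2 ≤ ε * y / κ := by
          rw [← hρ2]
          exact pow_le_pow_left₀ (by positivity) hRle 2
        calc Real.log K * (2 * K * (R : ℝ) ^ 2) ≤ Real.log K * (2 * K * (ε * y / κ)) := by
              gcongr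
          _ = ε * y / 4 := by
              rw [hκ]; field_simp; norm_num
  -- log R
  have hlogR : u / 2 - CR ≤ Real.log R := by
    have h2 := Real.log_le_log (by positivity) hRge
    have h3 : Real.log ρ = (1 / 2) * (Real.log (ε / κ) + u) := by
      have h4 : Real.log (ρ ^ 2) = Real.log (ε / κ) + u := by
        rw [hρ2, hu, ← Real.log_mul (by positivity) (by positivity)]
        congr 1
        ring
      rw [Real.log_pow] at h4
      push_cast at h4
      linarith
    rw [Real.log_div (by positivity) (by norm_num), h3] at h2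
    rw [hCR]
    linarith
  -- b
  set Hn := ⌊K * y⌋₊ + 1 with hHn
  have hHnle : (Hn : ℝ) ≤ K * y + 1 := by
    rw [hHn]; push_cast
    have := Nat.floor_le (show (0 : ℝ) ≤ K * y by positivity)
    linarith
  obtain ⟨b, hb⟩ := choose_res Hn hK P hP (fun _ => 1) (fun _ => zero_le_one)
  simp only [one_mul] at hb
  have hS1 : ∑ t ∈ CC K ×ˢ range Hn, ∏ p ∈ P,
      (if (p : ℤ) ∣ ff t.1 t.2 b then (1 / 2 : ℝ) else 1) ≤ Real.exp ((1 - δ) * u + C2) := by
    refine hb.trans ?_
    calc ∑ t ∈ CC K ×ˢ range Hn, ∏ p ∈ P,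
          (1 - 1 / (2 * ((CC K).card : ℝ) * (orderOf (t.1.1 : ZMod p) : ℝ)))
        ≤ ∑ t ∈ CC K ×ˢ range Hn, Real.exp (-((Real.log R - 1 - K) / (8 * c))) := by
          apply sum_le_sum
          intro t ht
          rw [mem_product] at ht
          have h2 := (mem_CC.1 ht.1).1
          exact hPe t.1.1 h2.1 h2.2 c hc1
      _ = c * Hn * Real.exp (-((Real.log R - 1 - K) / (8 * c))) := by
          rw [sum_const, nsmul_eq_mul, card_product, card_range, Nat.cast_mul]
      _ ≤ Real.exp ((1 - δ) * u + C2) :=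
          s1_bound K c y (Real.log R) CR Hn hKr hc1 (by linarith) hHnle hlogR
  -- Q
  set v := y / (48 * u) with hv
  have hv8 : 8 * u ≤ v := by
    rw [hv, le_div_iff₀ (by positivity)]
    calc 8 * u * (48 * u) = 384 * u ^ 2 := by ring
      _ ≤ y := y8
  set z := ⌊Real.exp v⌋₊ with hz
  set Q := QQ K P z with hQ
  have hQmem : ∀ p ∈ Q, p.Prime ∧ K < p ∧ p ∉ P := by
    intro p hp
    rw [hQ, mem_QQ] at hp
    exact ⟨hp.1.2, hp.2⟩
  obtain ⟨hQ1, hQ2⟩ := hC K P y (fun p hp => (hP p hp).1) y1 (by linarith) hPcy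
    (by rw [← hu, ← hv]; exact hv8)
  rw [← hu, ← hv, ← hz, ← hQ, ← hC5] at hQ1
  rw [← hu, ← hv, ← hz, ← hQ] at hQ2
  set k := 2 * ⌈5 * u⌉₊ with hk
  have hkge : 10 * u ≤ (k : ℝ) + 1 := by
    have := Nat.le_ceil (5 * u)
    rw [hk]; push_cast
    linarith
  have hkle : (k : ℝ) ≤ 11 * u := by
    have := Nat.ceil_lt_add_one (show 0 ≤ 5 * u by positivity)
    rw [hk]; push_cast
    linarith
  have hQk : ((Q.card : ℝ) + 1) ^ k ≤ Real.exp (y / 4) := by
    have h2 : (Q.card : ℝ) + 1 ≤ Real.exp (v + 1) := by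
      have h3 : (Q.card : ℝ) ≤ z := by exact_mod_cast card_QQ K P z
      have h4 : (z : ℝ) ≤ Real.exp v := Nat.floor_le (Real.exp_pos _).le
      have h5 : 1 ≤ Real.exp v := Real.one_le_exp (by linarith)
      have h6 : (2 : ℝ) ≤ Real.exp 1 := by have := Real.add_one_le_exp (1 : ℝ); linarith
      rw [Real.exp_add]
      calc (Q.card : ℝ) + 1 ≤ Real.exp v + Real.exp v := by linarith
        _ = Real.exp v * 2 := by ring
        _ ≤ Real.exp v * Real.exp 1 := mul_le_mul_of_nonneg_left h6 (Real.exp_pos v).le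
    calc ((Q.card : ℝ) + 1) ^ k ≤ (Real.exp (v + 1)) ^ k :=
          pow_le_pow_left₀ (by positivity) h2 k
      _ = Real.exp (k * (v + 1)) := by rw [← Real.exp_nat_mul]
      _ ≤ Real.exp (y / 4) := by
        apply Real.exp_le_exp.2
        calc (k : ℝ) * (v + 1) ≤ 11 * u * (v + 1) :=
              mul_le_mul_of_nonneg_right hkle (by linarith)
          _ = 11 * (u * v) + 11 * u := by ring
          _ = 11 * (y / 48) + 11 * u := by
              rw [hv]; field_simp
          _ ≤ y / 4 := by linarith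
  -- N
  have hex := Real.exp_pos y
  set N := ⌊Real.exp y / (K * M)⌋₊ with hN
  have hNle : (N : ℝ) ≤ Real.exp y / (K * M) := Nat.floor_le (by positivity)
  have hNge : Real.exp ((1 - ε / 4) * y) / K - 1 ≤ N := by
    have h2 : Real.exp y / (K * M) - 1 < N := Nat.sub_one_lt_floor _
    have h3 : Real.exp ((1 - ε / 4) * y) / K ≤ Real.exp y / (K * M) := by
      rw [div_le_div_iff₀ (by positivity) (by positivity)]
      have h4 : Real.exp y = Real.exp ((1 - ε / 4) * y) * Real.exp (ε * y / 4) := by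
        rw [← Real.exp_add]; ring_nf
      calc Real.exp ((1 - ε / 4) * y) * (K * M) ≤
            Real.exp ((1 - ε / 4) * y) * (K * Real.exp (ε * y / 4)) := by gcongr
        _ = Real.exp y * K := by rw [h4]; ring
    linarith
  set L := ⌈u ^ (1 - ε)⌉₊ with hL
  have hLle : (L : ℝ) ≤ u ^ (1 - ε) + 1 :=
    (Nat.ceil_lt_add_one (Real.rpow_nonneg hu0.le _)).le
  set θ := 1 - δ / 2 with hθ
  set E := (N : ℝ) * (Real.exp (-(1 - δ / 2) * (u - 2 * Real.log u - C5)) +
        Real.exp (8 * (u + C) - 20 * u)) + Real.exp (y / 4) with hE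
  set m₀ : ℤ := ⌈(Real.exp y - b) / M⌉ with hm₀
  have hcore := core (K := K) Hn P Q hP hQmem b m₀ N k L (by rw [hk]; exact even_two_mul _)
    θ (by rw [hθ]; linarith) (by rw [hθ]; linarith) (Real.exp ((1 - δ) * u + C2)) E hS1 (by
      rw [hE]
      apply add_le_add _ hQk
      apply mul_le_mul_of_nonneg_left _ (Nat.cast_nonneg _)
      apply add_le_add
      · exact prod_le_exp Q (fun p hp => (hQmem p hp).1) θ _ (by rw [hθ]; linarith)
          (by rw [hθ]; linarith) hQ1
      · exact pow_fact_le _ u C (sum_nonneg fun _ _ => by positivity) hQ2 k hkge)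
    (by positivity)
  set I := Ico m₀ (m₀ + N) with hI
  set Bad := I.filter (fun m => ∃ t ∈ CC K ×ˢ range Hn,
      (ff t.1 t.2 (b + (M : ℤ) * m)).natAbs.primeFactors.card < L) with hBad
  have hbadle : (Bad.card : ℝ) ≤ N / 2 := by
    refine hcore.trans ?_
    have h2 : Real.exp ((1 - δ) * u + C2) * 2 ^ L * (((1 - θ)⁻¹) ^ L * E) =
        Real.exp ((1 - δ) * u + C2) * (Real.exp (D * L) * E) := by
      have h3 : (2 : ℝ) ^ L * ((1 - θ)⁻¹) ^ L = Real.exp (D * L) := by
        rw [← mul_pow, hD, mul_comm (Real.log _), Real.exp_nat_mul, Real.exp_log (by positivity)]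
        congr 1
        have h4 : 1 - θ = δ / 2 := by rw [hθ]; ring
        rw [h4, inv_div]
        ring
      rw [← h3]; ring
    rw [h2, hE]
    apply final_num δ D C2 C5 C y u L N _ hδ0 (by linarith) hD0.le hC0 _ (by linarith) y6 y4 _
      y9 _
    · calc D * (L : ℝ) ≤ D * (u ^ (1 - ε) + 1) := mul_le_mul_of_nonneg_left hLle hD0.le
        _ ≤ D + (δ / 8) * u := by linarith
    · exact y11.trans hNge
    · refine le_trans ?_ y10
      rw [← hc]
      exact mul_le_mul_of_nonneg_left hHnle (by linarith)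
  -- the good integers
  have hMpos : (0 : ℝ) < M := by linarith
  refine ⟨(I \ Bad).image (fun m => b + (M : ℤ) * m), ?_, ?_⟩
  · intro n hn
    rw [mem_image] at hn
    obtain ⟨m, hm, rfl⟩ := hn
    rw [Finset.mem_sdiff] at hm
    obtain ⟨hmI, hmB⟩ := hm
    have hmI' := mem_Ico.1 hmI
    refine ⟨?_, ?_, ?_⟩
    · push_cast
      have h2 : (Real.exp y - b) / M ≤ (m₀ : ℝ) := Int.le_ceil _
      have h3 : (m₀ : ℝ) ≤ m := by exact_mod_cast hmI'.1
      have h4 := (div_le_iff₀ hMpos).1 (h2.trans h3)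
      linarith
    · push_cast
      have h2 : (m₀ : ℝ) < (Real.exp y - b) / M + 1 := Int.ceil_lt_add_one _
      have h3 : (m : ℝ) + 1 ≤ m₀ + N := by exact_mod_cast hmI'.2
      have h4 : (m : ℝ) ≤ (Real.exp y - b) / M + Real.exp y / (K * M) := by linarith
      have h5 : (M : ℝ) * m ≤ M * ((Real.exp y - b) / M + Real.exp y / (K * M)) :=
        mul_le_mul_of_nonneg_left h4 hMpos.le
      have h6 : (M : ℝ) * ((Real.exp y - b) / M + Real.exp y / (K * M)) =
          Real.exp y - b + Real.exp y / K := by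
        field_simp
      rw [h6] at h5
      calc (b : ℝ) + M * m ≤ b + (Real.exp y - b + Real.exp y / K) := by linarith
        _ = (1 + 1 / K) * Real.exp y := by ring
    · intro c' hc' h hh
      by_contra hcon
      push Not at hcon
      apply hmB
      rw [hBad, mem_filter]
      refine ⟨hmI, (c', h), ?_, ?_⟩
      · rw [mem_product, mem_range]
        refine ⟨hc', ?_⟩
        rw [hHn]
        exact Nat.lt_succ_of_le (Nat.le_floor hh)
      · rw [hL, Nat.lt_ceil]
        exact hcon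
  · rw [card_image_of_injective]
    · have h2 : I.card = N := by rw [hI, Int.card_Ico]; simp
      have h3 : (I.card : ℝ) ≤ ((I \ Bad).card : ℝ) + Bad.card := by
        have := le_card_sdiff Bad I
        have h4 : I.card ≤ (I \ Bad).card + Bad.card := by omega
        exact_mod_cast h4
      rw [h2] at h3
      linarith
    · intro m m' hmm
      have h2 : (M : ℤ) * m = M * m' := by
        simp only at hmm
        linarith
      exact mul_left_cancel₀ (by exact_mod_cast (by omega : M ≠ 0)) h2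

end Pool.Agent.R507.MP28
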