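import Mathlib

set_option autoImplicit false

/-!
# Primitive prime divisors of `A ^ r - 1`, `A ≥ 3`, `r` odd
-/

namespace Pool.Agent.R507.MP28

open Polynomial

theorem root_mod {n q : ℕ} (A : ℕ) (h : (q : ℤ) ∣ (cyclotomic n ℤ).eval (A : ℤ)) :
    IsRoot (cyclotomic n (ZMod q)) (A : ZMod q) := by
  have h1 := eval_intCast_map (Int.castRingHom (ZMod q)) (cyclotomic n ℤ) (A : ℤ)
  rw [map_cyclotomic_int] at h1
  rw [IsRoot.def]
  have h2 : ((A : ℤ) : ZMod q) = (A : ZMod q) := by norm_cast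
  rw [h2] at h1
  rw [h1]
  have h3 : (((cyclotomic n ℤ).eval (A : ℤ) : ℤ) : ZMod q) = 0 :=
    (ZMod.intCast_zmod_eq_zero_iff_dvd _ q).2 h
  simpa using h3

theorem order_of_not_dvd {n q : ℕ} (A : ℕ) (hq : q.Prime)
    (h : (q : ℤ) ∣ (cyclotomic n ℤ).eval (A : ℤ)) (hqn : ¬ q ∣ n) :
    orderOf (A : ZMod q) = n := by
  have := Fact.mk hq
  have : NeZero ((n : ℕ) : ZMod q) := ⟨by rwa [Ne, ZMod.natCast_eq_zero_iff]⟩
  exact (isRoot_cyclotomic_iff.1 (root_mod A h)).eq_orderOf.symm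

theorem prim_of_dvd {m a q : ℕ} (A : ℕ) (hq : q.Prime) (hqm : ¬ q ∣ m)
    (h : (q : ℤ) ∣ (cyclotomic (q ^ a * m) ℤ).eval (A : ℤ)) :
    IsPrimitiveRoot (A : ZMod q) m := by
  have := Fact.mk hq
  have : NeZero ((m : ℕ) : ZMod q) := ⟨by rwa [Ne, ZMod.natCast_eq_zero_iff]⟩
  exact isRoot_cyclotomic_prime_pow_mul_iff_of_charP.1 (root_mod A h)

theorem ne_zero_of_prim {m q : ℕ} (A : ℕ) (hq : q.Prime) (hm : m ≠ 0)
    (h : IsPrimitiveRoot (A : ZMod q) m) : (A : ZMod q) ≠ 0 := by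
  have := Fact.mk hq
  intro h2
  have h1 := h.pow_eq_one
  rw [h2, zero_pow hm] at h1
  exact zero_ne_one h1

theorem dvd_sub_one_of_prim {m q : ℕ} (A : ℕ) (hq : q.Prime) (hm : m ≠ 0)
    (h : IsPrimitiveRoot (A : ZMod q) m) : m ∣ q - 1 := by
  have := Fact.mk hq
  rw [h.eq_orderOf]
  exact orderOf_dvd_of_pow_eq_one (ZMod.pow_card_sub_one_eq_one (ne_zero_of_prim A hq hm h))

/-- `q ^ 2` does not divide `Φ_n(A)` when `q ∣ n`, `q` odd -/
theorem sq_not_dvd {m a q : ℕ} (A : ℕ) (hA : 2 ≤ A) (hq : q.Prime) (hq2 : q ≠ 2) (hm : m ≠ 0)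
    (hp : IsPrimitiveRoot (A : ZMod q) m) :
    ¬ (q : ℤ) ^ 2 ∣ (cyclotomic (m * q ^ (a + 1)) ℤ).eval (A : ℤ) := by
  have := Fact.mk hq
  intro hd
  set d := m * q ^ a with hdd
  have hn : m * q ^ (a + 1) = d * q := by rw [hdd]; ring
  have hdpos : 0 < d := Nat.mul_pos (Nat.pos_of_ne_zero hm) (pow_pos hq.pos _)
  have hmem : d ∈ (m * q ^ (a + 1)).properDivisors := by
    rw [Nat.mem_properDivisors, hn]
    exact ⟨Dvd.intro _ rfl, by nlinarith [hq.two_le]⟩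
  have h1 := X_pow_sub_one_mul_cyclotomic_dvd_X_pow_sub_one_of_dvd ℤ hmem
  have h2 : ((X ^ d - 1) * cyclotomic (m * q ^ (a + 1)) ℤ).eval (A : ℤ) ∣
      (X ^ (m * q ^ (a + 1)) - 1 : ℤ[X]).eval (A : ℤ) := eval_dvd h1
  simp only [eval_mul, eval_sub, eval_pow, eval_X, eval_one] at h2
  have h3 : ((A : ℤ) ^ d - 1) * (q : ℤ) ^ 2 ∣ (A : ℤ) ^ (m * q ^ (a + 1)) - 1 :=
    (mul_dvd_mul_left _ hd).trans h2
  have hd1 : 1 < A ^ d := Nat.one_lt_pow hdpos.ne' (by omega)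
  have hn0 : m * q ^ (a + 1) ≠ 0 := Nat.mul_ne_zero hm (pow_pos hq.pos _).ne'
  have hn1 : 1 < A ^ (m * q ^ (a + 1)) := Nat.one_lt_pow hn0 (by omega)
  have h4 : (A ^ d - 1) * q ^ 2 ∣ A ^ (m * q ^ (a + 1)) - 1 := by
    have e1 : (((A ^ d - 1) * q ^ 2 : ℕ) : ℤ) = ((A : ℤ) ^ d - 1) * (q : ℤ) ^ 2 := by
      push_cast [Nat.cast_sub hd1.le]
      ring
    have e2 : ((A ^ (m * q ^ (a + 1)) - 1 : ℕ) : ℤ) = (A : ℤ) ^ (m * q ^ (a + 1)) - 1 := by
      push_cast [Nat.cast_sub hn1.le]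
      ring
    rw [← e1, ← e2] at h3
    exact_mod_cast h3
  have hpow : (A : ZMod q) ^ d = 1 := by
    rw [hdd, pow_mul, hp.pow_eq_one, one_pow]
  have hdvd : q ∣ A ^ d - 1 := by
    have h5 : (((A ^ d - 1 : ℕ)) : ZMod q) = 0 := by
      rw [Nat.cast_sub hd1.le]
      push_cast
      rw [hpow, sub_self]
    exact (ZMod.natCast_eq_zero_iff _ _).1 h5
  have hndvd : ¬ q ∣ A ^ d := by
    intro h
    have h6 := hq.dvd_of_dvd_pow h
    exact ne_zero_of_prim A hq hm hp ((ZMod.natCast_eq_zero_iff _ _).2 h6)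
  have hlte := padicValNat.pow_sub_pow (p := q) (x := A ^ d) (y := 1) (hq.odd_of_ne_two hq2) hd1
    hdvd hndvd (n := q) hq.ne_zero
  rw [one_pow, ← pow_mul, ← hn, padicValNat_self] at hlte
  have hne1 : A ^ d - 1 ≠ 0 := by omega
  have hne2 : A ^ (m * q ^ (a + 1)) - 1 ≠ 0 := by omega
  have h6 : q ^ (padicValNat q (A ^ d - 1) + 2) ∣ A ^ (m * q ^ (a + 1)) - 1 := by
    rw [pow_add]
    exact (mul_dvd_mul_right pow_padicValNat_dvd _).trans h4
  have h7 := (padicValNat_dvd_iff_le hne2).1 h6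
  omega

/-- primitive prime divisors -/
theorem exists_prim (A : ℕ) (hA : 3 ≤ A) (n : ℕ) (hn : 3 ≤ n) (hodd : Odd n) :
    ∃ q : ℕ, q.Prime ∧ orderOf (A : ZMod q) = n := by
  have hbig : ((A : ℝ) - 1) ^ n.totient < (cyclotomic n ℝ).eval (A : ℝ) :=
    sub_one_pow_totient_lt_cyclotomic_eval (by omega) (by exact_mod_cast (by omega : 1 < A))
  have hpos : 0 < (cyclotomic n ℤ).eval (A : ℤ) := cyclotomic_pos (by omega) _
  obtain ⟨e, he⟩ : ∃ e : ℕ, (e : ℤ) = (cyclotomic n ℤ).eval (A : ℤ) :=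
    ⟨((cyclotomic n ℤ).eval (A : ℤ)).natAbs, Int.natAbs_of_nonneg hpos.le⟩
  have hcast : (cyclotomic n ℝ).eval (A : ℝ) = ((e : ℕ) : ℝ) := by
    have h1 := eval_intCast_map (Int.castRingHom ℝ) (cyclotomic n ℤ) (A : ℤ)
    rw [map_cyclotomic_int] at h1
    have h2 : (((A : ℕ) : ℤ) : ℝ) = (A : ℝ) := by norm_cast
    rw [h2] at h1
    rw [h1]
    show ((Int.castRingHom ℝ) ((cyclotomic n ℤ).eval (A : ℤ))) = _
    rw [← he]
    simp
  rw [hcast] at hbig
  have hA1 : (2 : ℝ) ≤ (A : ℝ) - 1 := by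
    have : (3 : ℝ) ≤ A := by exact_mod_cast hA
    linarith
  have he1 : 1 < e := by
    have h1 : (1 : ℝ) ≤ ((A : ℝ) - 1) ^ n.totient := one_le_pow₀ (by linarith)
    exact_mod_cast lt_of_le_of_lt h1 hbig
  by_contra hno
  push Not at hno
  have hall : ∀ q : ℕ, q.Prime → q ∣ e → q ∣ n := by
    intro q hq hqe
    by_contra hqn
    exact hno q hq (order_of_not_dvd A hq (by rw [← he]; exact_mod_cast hqe) hqn)
  have hstr : ∀ q : ℕ, q.Prime → q ∣ e → ∃ m a : ℕ, n = m * q ^ (a + 1) ∧ m ≠ 0 ∧ ¬ q ∣ m ∧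
      IsPrimitiveRoot (A : ZMod q) m ∧ m ∣ q - 1 ∧ q ≠ 2 := by
    intro q hq hqe
    obtain ⟨a, m, hqm, hnam⟩ := Nat.exists_eq_pow_mul_and_not_dvd (n := n) (by omega) q hq.ne_one
    have hm : m ≠ 0 := by
      rintro rfl
      exact hqm (dvd_zero q)
    have ha : a ≠ 0 := by
      rintro rfl
      rw [pow_zero, one_mul] at hnam
      exact hqm (hnam ▸ hall q hq hqe)
    obtain ⟨a', rfl⟩ := Nat.exists_eq_succ_of_ne_zero ha
    have hp : IsPrimitiveRoot (A : ZMod q) m := by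
      apply prim_of_dvd (a := a' + 1) A hq hqm
      rw [← hnam, ← he]
      exact_mod_cast hqe
    refine ⟨m, a', by rw [hnam, mul_comm], hm, hqm, hp, dvd_sub_one_of_prim A hq hm hp, ?_⟩
    rintro rfl
    have := (hall 2 hq hqe)
    exact absurd hodd (by rw [Nat.not_odd_iff_even]; exact even_iff_two_dvd.2 this)
  obtain ⟨q, hq, hqe⟩ := Nat.exists_prime_and_dvd (n := e) (by omega)
  have hlt : ∀ p r : ℕ, p.Prime → r.Prime → p ∣ e → r ∣ e → p ≠ r → r < p := by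
    intro p r hp hr hpe hre hne
    obtain ⟨m, a, hnm, hm, hpm, -, hdv, -⟩ := hstr p hp hpe
    have h1 := hall r hr hre
    rw [hnm] at h1
    rcases hr.dvd_mul.1 h1 with h2 | h2
    · have := Nat.le_of_dvd (by have := hp.two_le; omega) (h2.trans hdv)
      have := hp.two_le
      omega
    · exact absurd ((Nat.prime_dvd_prime_iff_eq hr hp).1 (hr.dvd_of_dvd_pow h2)).symm hne
  have huniq : ∀ {d : ℕ}, d.Prime → d ∣ e → d = q := by
    intro d hd hde
    by_contra hne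
    have h1 := hlt d q hd hq hde hqe hne
    have h2 := hlt q d hq hd hqe hde (Ne.symm hne)
    omega
  have hpow := Nat.eq_prime_pow_of_unique_prime_dvd (n := e) (p := q) (by omega) huniq
  obtain ⟨m, a, hnm, hm, hqm, hprim, hdv, hq2⟩ := hstr q hq hqe
  have hsq : ¬ q ^ 2 ∣ e := by
    intro h
    apply sq_not_dvd (a := a) A (by omega) hq hq2 hm hprim
    rw [← hnm, ← he]
    exact_mod_cast h
  have heq : e = q := by
    generalize e.primeFactorsList.length = l at hpow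
    rcases Nat.lt_or_ge l 2 with h | h
    · interval_cases l
      · rw [pow_zero] at hpow
        omega
      · simpa using hpow
    · exact absurd (hpow ▸ pow_dvd_pow q h) hsq
  -- size
  have h1 : q - 1 ≤ n.totient := by
    have h2 : q.totient ∣ n.totient := Nat.totient_dvd_of_dvd (hall q hq hqe)
    rw [Nat.totient_prime hq] at h2
    exact Nat.le_of_dvd (Nat.totient_pos.2 (by omega)) h2
  have h3 : (q : ℝ) ≤ ((A : ℝ) - 1) ^ n.totient := by
    have h4 : q ≤ 2 ^ (q - 1) := by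
      have := Nat.lt_two_pow_self (n := q - 1)
      omega
    calc (q : ℝ) ≤ 2 ^ (q - 1) := by exact_mod_cast h4
      _ ≤ ((A : ℝ) - 1) ^ (q - 1) := pow_le_pow_left₀ (by norm_num) hA1 _
      _ ≤ ((A : ℝ) - 1) ^ n.totient := pow_le_pow_right₀ (by linarith) h1
  rw [heq] at hbig
  linarith

/-- for a base `a ≥ 2` and odd `r ≥ 3` there is a prime `q > r`, `q < a ^ (2 r)`, modulo which
`a` is invertible, of order at most `2 r`; moreover `r` is determined by `q`. -/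
theorem exists_prime_small_order (a : ℕ) (ha : 2 ≤ a) (r : ℕ) (hr : 3 ≤ r) (hodd : Odd r) :
    ∃ q : ℕ, q.Prime ∧ r < q ∧ q < a ^ (2 * r) ∧ orderOf ((a ^ 2 : ℕ) : ZMod q) = r ∧
      0 < orderOf (a : ZMod q) ∧ orderOf (a : ZMod q) ≤ 2 * r := by
  obtain ⟨q, hq, ho⟩ := exists_prim (a ^ 2) (by nlinarith) r hr hodd
  have := Fact.mk hq
  have h0 : ((a ^ 2 : ℕ) : ZMod q) ≠ 0 := by
    intro h
    rw [h, orderOf_zero] at ho
    omega
  have h0' : (a : ZMod q) ≠ 0 := by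
    intro h
    apply h0
    push_cast
    rw [h]
    ring
  have h1 : r ∣ q - 1 := by
    rw [← ho]
    exact orderOf_dvd_of_pow_eq_one (ZMod.pow_card_sub_one_eq_one h0)
  have h2 : (a : ZMod q) ^ (2 * r) = 1 := by
    have := pow_orderOf_eq_one ((a ^ 2 : ℕ) : ZMod q)
    rw [ho] at this
    rw [pow_mul]
    exact_mod_cast this
  have h3 : q ∣ a ^ (2 * r) - 1 := by
    have h5 : (((a ^ (2 * r) - 1 : ℕ)) : ZMod q) = 0 := by
      rw [Nat.cast_sub (Nat.one_le_pow _ _ (by omega))]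
      push_cast
      rw [h2, sub_self]
    exact (ZMod.natCast_eq_zero_iff _ _).1 h5
  have h4 : 1 < a ^ (2 * r) := Nat.one_lt_pow (by omega) (by omega)
  refine ⟨q, hq, ?_, ?_, ho, ?_, ?_⟩
  · have := Nat.le_of_dvd (by have := hq.two_le; omega) h1
    omega
  · have := Nat.le_of_dvd (by omega) h3
    omega
  · exact orderOf_pos_iff.2 (isOfFinOrder_iff_pow_eq_one.2 ⟨2 * r, by omega, h2⟩)
  · exact Nat.le_of_dvd (by omega) (orderOf_dvd_of_pow_eq_one h2)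

end Pool.Agent.R507.MP28
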